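import Pool.Agent.Lib.MP_34a06d_pr.Defs

set_option autoImplicit false

namespace Pool.Agent.MR

open Equiv

variable {m : ℕ}

lemma Beta_swap {x y : Lab m} (hxy : x.1 = y.1) (s : Lab m) : (swap x y s).1 = s.1 := by
  rw [swap_apply_def]
  split_ifs with h1 h2
  · rw [h1, hxy]
  · rw [h2, hxy]
  · rfl

/-- type-preserving permutation with two prescribed values -/
lemma Beta_tp {u t a b : Lab m} (hut : t ≠ u) (hab : b ≠ a) (ha : a.1 = u.1) (hb : b.1 = t.1) :
    ∃ β : Perm (Lab m), β u = a ∧ β t = b ∧ ∀ s, (β s).1 = s.1 := by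
  have ht' : swap u a t ≠ a := by
    intro h
    have h' : swap u a (swap u a t) = t := swap_apply_self _ _ _
    rw [h, swap_apply_right] at h'
    exact hut h'.symm
  refine ⟨swap (swap u a t) b * swap u a, ?_, ?_, ?_⟩
  · rw [Perm.mul_apply, swap_apply_left, swap_apply_of_ne_of_ne ht'.symm hab.symm]
  · rw [Perm.mul_apply, swap_apply_left]
  · intro s
    rw [Perm.mul_apply, Beta_swap, Beta_swap ha.symm]
    rw [Beta_swap ha.symm, hb]

/-- swapping two free labels afterwards keeps compatibility -/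
lemma Beta_free {β : Perm (Lab m)} (h : ∀ s, Free (β s) ∨ (β s).1 = s.1) {x y : Lab m}
    (hx : Free x) (hy : Free y) (s : Lab m) :
    Free ((swap x y * β) s) ∨ ((swap x y * β) s).1 = s.1 := by
  rw [Perm.mul_apply, swap_apply_def]
  split_ifs with h1 h2
  · exact Or.inl hy
  · exact Or.inl hx
  · exact h s

/-- a free label of a given type, different from a given label -/
lemma Beta_exists (hm : 2 ≤ m) (c : Bool) (v : Lab m) : ∃ f : Lab m, Free f ∧ f.1 = c ∧ f ≠ v := by
  by_cases h : v = (c, ⟨0, by omega⟩)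
  · refine ⟨(c, ⟨1, by omega⟩), by simp [Free], rfl, ?_⟩
    rw [h]
    simp
  · exact ⟨(c, ⟨0, by omega⟩), by simp [Free], rfl, fun h' => h h'.symm⟩

theorem exists_beta (hm : 2 ≤ m) {u v t : Lab m} {c : Bool} (h : Free v ∨ v.1 = u.1) :
    ∃ β, GoodB u v t c β := by
  by_cases htu : t = u
  · -- no condition on `t`
    by_cases huv : v.1 = u.1
    · exact ⟨swap u v, swap_apply_left _ _, fun s => Or.inr (Beta_swap huv.symm s),
        fun h => absurd htu h⟩
    · have hv : Free v := h.resolve_right huv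
      obtain ⟨f', hf', hf'u, hf'v⟩ := Beta_exists hm u.1 v
      refine ⟨swap v f' * swap u f', ?_, ?_, fun h => absurd htu h⟩
      · rw [Perm.mul_apply, swap_apply_left, swap_apply_right]
      · exact Beta_free (fun s => Or.inr (Beta_swap hf'u.symm s)) hv hf'
  by_cases huv : v.1 = u.1
  · by_cases htc : t.1 = c
    · exact ⟨swap u v, swap_apply_left _ _, fun s => Or.inr (Beta_swap huv.symm s),
        fun _ => by rw [Beta_swap huv.symm, htc]⟩
    · -- Case B
      obtain ⟨f, hf, hfc, hfv⟩ := Beta_exists hm c v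
      obtain ⟨f', hf', hf't, hf'v⟩ := Beta_exists hm t.1 v
      obtain ⟨β, h1, h2, h3⟩ := Beta_tp htu hf'v huv hf't
      refine ⟨swap f f' * β, ?_, Beta_free (fun s => Or.inr (h3 s)) hf hf', fun _ => ?_⟩
      · rw [Perm.mul_apply, h1, swap_apply_of_ne_of_ne hfv.symm hf'v.symm]
      · rw [Perm.mul_apply, h2, swap_apply_right, hfc]
  · have hv : Free v := h.resolve_right huv
    obtain ⟨f', hf', hf'u, hf'v⟩ := Beta_exists hm u.1 v
    by_cases htc : t.1 = c
    · by_cases htu1 : t.1 = u.1
      · -- C1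
        obtain ⟨b, hb, hbu, hbf⟩ := Beta_exists hm u.1 f'
        obtain ⟨β, h1, h2, h3⟩ := Beta_tp htu hbf hf'u (hbu.trans htu1.symm)
        refine ⟨swap v f' * β, ?_, Beta_free (fun s => Or.inr (h3 s)) hv hf', fun _ => ?_⟩
        · rw [Perm.mul_apply, h1, swap_apply_right]
        · have hbv : b ≠ v := by
            rintro rfl
            exact huv hbu
          rw [Perm.mul_apply, h2, swap_apply_of_ne_of_ne hbv hbf, hbu, ← htu1, htc]
      · -- C2
        obtain ⟨b, hb, hbv1, hbv⟩ := Beta_exists hm t.1 v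
        have hbf : b ≠ f' := by
          rintro rfl
          exact htu1 (hbv1.symm.trans hf'u)
        obtain ⟨β, h1, h2, h3⟩ := Beta_tp htu hbf hf'u hbv1
        refine ⟨swap v f' * β, ?_, Beta_free (fun s => Or.inr (h3 s)) hv hf', fun _ => ?_⟩
        · rw [Perm.mul_apply, h1, swap_apply_right]
        · rw [Perm.mul_apply, h2, swap_apply_of_ne_of_ne hbv hbf, hbv1, htc]
    · by_cases htu1 : t.1 = u.1
      · -- C4
        have hvc : v.1 = c := by
          cases h1 : v.1 <;> cases h2 : u.1 <;> cases h3 : t.1 <;> cases c <;> simp_all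
        obtain ⟨f'', hf'', hf''u, hf''f'⟩ := Beta_exists hm u.1 f'
        obtain ⟨f, hf, hfc, hfv⟩ := Beta_exists hm v.1 v
        obtain ⟨β, h1, h2, h3⟩ := Beta_tp htu hf''f' hf'u (hf''u.trans htu1.symm)
        have hf''v : f'' ≠ v := by
          rintro rfl
          exact huv hf''u
        refine ⟨swap f f'' * (swap v f' * β), ?_,
          Beta_free (Beta_free (fun s => Or.inr (h3 s)) hv hf') hf hf'', fun _ => ?_⟩
        · rw [Perm.mul_apply, Perm.mul_apply, h1, swap_apply_right,
            swap_apply_of_ne_of_ne hfv.symm hf''v.symm]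
        · rw [Perm.mul_apply, Perm.mul_apply, h2, swap_apply_of_ne_of_ne hf''v hf''f',
            swap_apply_right, hfc, hvc]
      · -- C3
        have htv : v.1 = t.1 := by
          cases h1 : v.1 <;> cases h2 : u.1 <;> cases h3 : t.1 <;> simp_all
        have huc : u.1 = c := by
          cases h1 : v.1 <;> cases h2 : u.1 <;> cases h3 : t.1 <;> cases c <;> simp_all
        obtain ⟨β, h1, h2, h3⟩ := Beta_tp htu hf'v.symm hf'u htv
        refine ⟨swap v f' * β, ?_, Beta_free (fun s => Or.inr (h3 s)) hv hf', fun _ => ?_⟩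
        · rw [Perm.mul_apply, h1, swap_apply_right]
        · rw [Perm.mul_apply, h2, swap_apply_left, hf'u, huc]

theorem beta_spec (hm : 2 ≤ m) {u v t : Lab m} {c : Bool} (h : Free v ∨ v.1 = u.1) :
    GoodB u v t c (beta u v t c) := by
  have := exists_beta hm (t := t) (c := c) h
  unfold beta
  rw [dif_pos this]
  exact this.choose_spec

end Pool.Agent.MR
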