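import Pool.Agent.Lib.MP_34a06d_pr.Beta

set_option autoImplicit false

namespace Pool.Agent.MR

open Equiv

variable {m : ℕ}

lemma flip_flip (s : Lab m) : flip (flip s) = s := by
  simp [flip]

lemma flip_ne (s : Lab m) : flip s ≠ s := by
  intro h
  have := congrArg Prod.fst h
  simp [flip] at this

lemma ls2_eq (ω : Om m) : ∀ y, (ls2 ω y).p = bt ω y * (ls ω y).p
  | [] => rfl
  | _ :: _ => rfl

lemma ls2_cons_l (ω : Om m) (j : Lab m) (q : List (Lab m)) :
    (ls2 ω (j :: q)).l = (ls2 ω q).p j := rfl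

lemma ls_cons_l (ω : Om m) (j : Lab m) (q : List (Lab m)) :
    (ls ω (j :: q)).l = (ls ω q).p j := rfl

lemma ls_cons_p (ω : Om m) (j : Lab m) (q : List (Lab m)) :
    (ls ω (j :: q)).p j = (ls ω q).l := by
  show (swap ((ω (j :: q)).p j) (ls ω q).l * (ω (j :: q)).p) j = _
  rw [Perm.mul_apply, swap_apply_left]

theorem bal_ls (ω : Om m) : Bal (ls ω) := by
  intro y i
  cases y with
  | nil => rfl
  | cons j q =>
    by_cases h : j = i
    · subst h
      simp only [nb, if_true]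
      rw [ls_cons_p]
    · simp only [nb, if_neg h]
      rfl

/-- compatibility of the labels, and the properties of the chosen permutations -/
lemma Coupling_inv (hm : 2 ≤ m) (ω : Om m) : ∀ y,
    (Free (ls2 ω y).l ∨ (ls2 ω y).l.1 = (ls ω y).l.1) ∧
    (∀ s, Free (bt ω y s) ∨ (bt ω y s).1 = s.1)
  | [] => by
    have h := (beta_spec hm (u := (ω []).l) (v := (ω []).l) (t := flip (ω []).l) (c := (ω []).l.1)
      (Or.inr rfl)).2.1
    exact ⟨Or.inr rfl, h⟩
  | j :: q => by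
    obtain ⟨h1, h2⟩ := Coupling_inv hm ω q
    have h := (beta_spec hm (u := (ls ω q).l) (v := (ls2 ω q).l) (t := flip ((ls ω q).p j))
      (c := ((ls2 ω q).p j).1) h1).2.1
    refine ⟨?_, h⟩
    rw [ls2_cons_l, ls_cons_l, ls2_eq, Perm.mul_apply]
    exact h2 _

lemma Coupling_bt (hm : 2 ≤ m) (ω : Om m) (j : Lab m) (q : List (Lab m)) :
    bt ω (j :: q) (ls ω q).l = (ls2 ω q).l :=
  (beta_spec hm (u := (ls ω q).l) (v := (ls2 ω q).l) (t := flip ((ls ω q).p j))
      (c := ((ls2 ω q).p j).1) (Coupling_inv hm ω q).1).1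

lemma Coupling_flip (hm : 2 ≤ m) (ω : Om m) : ∀ y,
    (bt ω y (flip (ls ω y).l)).1 = (ls2 ω y).l.1
  | [] => (beta_spec hm (u := (ω []).l) (v := (ω []).l) (t := flip (ω []).l) (c := (ω []).l.1)
      (Or.inr rfl)).2.2 (flip_ne _)
  | j :: q => by
    by_cases h : flip ((ls ω q).p j) = (ls ω q).l
    · have h1 := Coupling_flip hm ω q
      rw [← h, flip_flip] at h1
      rw [ls_cons_l, h, Coupling_bt hm, ← h1, ls2_cons_l, ls2_eq, Perm.mul_apply]
    · exact (beta_spec hm (u := (ls ω q).l) (v := (ls2 ω q).l) (t := flip ((ls ω q).p j))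
        (c := ((ls2 ω q).p j).1) (Coupling_inv hm ω q).1).2.2 h

theorem ls_Phi (hm : 2 ≤ m) (ω : Om m) : ls (Phi ω) = ls2 ω := by
  funext y
  induction y with
  | nil => rfl
  | cons j q ih =>
    have e1 : (ls (Phi ω) (j :: q)).l = (ls2 ω (j :: q)).l := by
      rw [ls_cons_l, ls2_cons_l, ih]
    have e2 : (ls (Phi ω) (j :: q)).p = (ls2 ω (j :: q)).p := by
      rw [ls2_eq]
      show swap (((Phi ω) (j :: q)).p j) (ls (Phi ω) q).l * ((Phi ω) (j :: q)).p =
        bt ω (j :: q) * (swap ((ω (j :: q)).p j) (ls ω q).l * (ω (j :: q)).p)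
      rw [ih]
      show swap ((bt ω (j :: q) * (ω (j :: q)).p) j) (ls2 ω q).l * (bt ω (j :: q) * (ω (j :: q)).p) = _
      rw [Perm.mul_apply, ← Coupling_bt hm ω j q, ← mul_assoc, ← mul_assoc]
      congr 1
      rw [← Equiv.mul_swap_eq_swap_mul]
    exact X.ext e1 e2

theorem fld_le {N : ℕ} (hm : 2 ≤ m) (ω : Om m) (y : List (Lab m)) (b : Gn N m) :
    fld1 (ls ω) y b ≤ fld2 (ls2 ω) y b := by
  obtain ⟨h1, h2⟩ := Coupling_inv hm ω y
  rcases b with ⟨j, t, u⟩ | i
  · show (if (ls ω y).l.1 = t then (1 : ℝ) else 0) ≤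
      (if Free (ls2 ω y).l ∨ (ls2 ω y).l.1 = t then 1 else 0)
    by_cases h : (ls ω y).l.1 = t
    · rw [if_pos h, if_pos (by rw [← h]; exact h1)]
    · rw [if_neg h]
      split_ifs <;> norm_num
  · show (if (ls ω y).p i = flip (ls ω y).l then (1 : ℝ) else 0) ≤
      (if ((ls2 ω y).p i).1 = (ls2 ω y).l.1 then 1 else 0)
    by_cases h : (ls ω y).p i = flip (ls ω y).l
    · rw [if_pos h, if_pos]
      rw [ls2_eq, Perm.mul_apply, h]
      exact Coupling_flip hm ω y
    · rw [if_neg h]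
      split_ifs <;> norm_num

end Pool.Agent.MR
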