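import Mathlib

/-!
MP_34a06d_pr: the speed is not monotone for (marginally) invariant random rate fields.
Basic definitions.  Everything lives in the namespace `Pool.Agent.MR`.
-/

set_option autoImplicit false

namespace Pool.Agent.MR

open Equiv MeasureTheory

/-! ## 1. One step of the (uniformized) walk -/

section Walk

variable {W B : Type} [Group W] [Fintype B]

/-- one step of the walk: choose a generator `g i` uniformly, cross `{w, w * g i}` with
probability `r w i` -/
noncomputable def K (g : B → W) (r : W → B → ℝ) (f : W → ℝ) (w : W) : ℝ :=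
  f w + (1 / (Fintype.card B : ℝ)) * ∑ i, r w i * (f (w * g i) - f w)

end Walk

/-! ## 2. Labellings of the tree -/

/-- labels; also the index set of the generators of `(Z/2)^{*2m}` -/
abbrev Lab (m : ℕ) : Type := Bool × Fin m

variable {m : ℕ}

/-- the free labels: two of each type -/
def Free (s : Lab m) : Prop := s.2.val < 2

instance : DecidablePred (Free (m := m)) := fun s => inferInstanceAs (Decidable (s.2.val < 2))

/-- change the type of a label -/
def flip (s : Lab m) : Lab m := (!s.1, s.2)

/-- the neighbour of the vertex `y` along the generator `i` (vertices are reversed words) -/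
def nb (i : Lab m) : List (Lab m) → List (Lab m)
  | [] => [i]
  | j :: q => if j = i then q else i :: j :: q

/-- multiplication from the left by the generator `i` (at the end of the list) -/
def lm (i : Lab m) : List (Lab m) → List (Lab m)
  | [] => [i]
  | [j] => if j = i then [] else [j, i]
  | j :: k :: q => j :: lm i (k :: q)

/-- reduced words -/
def Rdc : List (Lab m) → Prop
  | [] => True
  | [_] => True
  | j :: k :: q => j ≠ k ∧ Rdc (k :: q)

instance decRdc : (l : List (Lab m)) → Decidable (Rdc l)
  | [] => isTrue trivial
  | [_] => isTrue trivial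
  | j :: k :: q =>
    have := decRdc (k :: q)
    inferInstanceAs (Decidable (j ≠ k ∧ Rdc (k :: q)))

/-- a label and a permutation (the labels of the neighbours) -/
@[ext] structure X (m : ℕ) where
  l : Lab m
  p : Perm (Lab m)

/-- `X` as a product -/
def X.equiv (m : ℕ) : X m ≃ Lab m × Perm (Lab m) where
  toFun x := (x.l, x.p)
  invFun x := ⟨x.1, x.2⟩
  left_inv _ := rfl
  right_inv _ := rfl

instance : Fintype (X m) := Fintype.ofEquiv _ (X.equiv m).symm
noncomputable instance : DecidableEq (X m) := Classical.decEq _
instance : MeasurableSpace (X m) := ⊤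
instance : DiscreteMeasurableSpace (X m) := ⟨fun _ => trivial⟩
instance [NeZero m] : Nonempty (X m) := ⟨⟨(false, 0), 1⟩⟩

/-- the probability space: independent uniform labels and permutations -/
abbrev Om (m : ℕ) : Type := List (Lab m) → X m

noncomputable def mu (m : ℕ) : Measure (Om m) :=
  Measure.infinitePi fun _ : List (Lab m) => ProbabilityTheory.uniformOn (Set.univ : Set (X m))

/-- the random balanced labelling: `(ls ω y).l` is the label of the vertex `y`, `(ls ω y).p i` the
label of its neighbour along `i` -/
def ls (ω : Om m) : List (Lab m) → X m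
  | [] => ω []
  | j :: q => ⟨(ls ω q).p j, swap ((ω (j :: q)).p j) (ls ω q).l * (ω (j :: q)).p⟩

/-- the permutation is compatible -/
def GoodB (u v t : Lab m) (c : Bool) (β : Perm (Lab m)) : Prop :=
  β u = v ∧ (∀ s, Free (β s) ∨ (β s).1 = s.1) ∧ (t ≠ u → (β t).1 = c)

open Classical in
/-- a choice of a compatible permutation -/
noncomputable def beta (u v t : Lab m) (c : Bool) : Perm (Lab m) :=
  if h : ∃ β, GoodB u v t c β then h.choose else 1

/-- the second labelling, coupled to the first -/
noncomputable def ls2 (ω : Om m) : List (Lab m) → X m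
  | [] => ⟨(ω []).l, beta (ω []).l (ω []).l (flip (ω []).l) (ω []).l.1 * (ω []).p⟩
  | j :: q => ⟨(ls2 ω q).p j,
      beta (ls ω q).l (ls2 ω q).l (flip ((ls ω q).p j)) ((ls2 ω q).p j).1 * (ls ω (j :: q)).p⟩

/-- the permutation used at a vertex -/
noncomputable def bt (ω : Om m) : List (Lab m) → Perm (Lab m)
  | [] => beta (ω []).l (ω []).l (flip (ω []).l) (ω []).l.1
  | j :: q => beta (ls ω q).l (ls2 ω q).l (flip ((ls ω q).p j)) ((ls2 ω q).p j).1

/-- the transformation of the probability space which turns the first labelling into the second -/
noncomputable def Phi (ω : Om m) : Om m := fun y => ⟨(ω y).l, bt ω y * (ω y).p⟩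

/-- the transformation of the probability space which moves the root to its neighbour along `i` -/
def T (i : Lab m) (ω : Om m) : Om m := fun y =>
  if y = [] then ⟨(ω []).p i, swap ((ω [i]).p i) (ω []).l * (ω [i]).p⟩
  else if y = [i] then ⟨(ω [i]).l, swap ((ω [i]).p i) ((ω []).p i) * (ω []).p⟩
  else if Rdc y then ω (lm i y) else ω y

/-- a balanced labelling -/
def Bal (c : List (Lab m) → X m) : Prop := ∀ y i, (c (nb i y)).l = (c y).p i

/-! ## 3. Normal forms of `(Z/2)^2 * (Z/2)^2` -/

/-- the nonzero elements of `(Z/2)^2` -/
inductive V : Type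
  | a | b | ab
  deriving DecidableEq

/-- the generators -/
def V.sg : Bool → V
  | false => .a
  | true => .b

/-- add a generator (`none` is zero) -/
def V.add (u : Bool) : V → Option V
  | .a => if u then some .ab else none
  | .b => if u then none else some .ab
  | .ab => if u then some .a else some .b

/-- normal forms: empty, or the type and the value of the last block and the values of the other
blocks (the types alternate) -/
inductive NF : Type
  | e : NF
  | mk (t : Bool) (v : V) (l : List V) : NF
  deriving DecidableEq

/-- the normal form with top type `t` and these blocks -/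
def NF.of (t : Bool) : List V → NF
  | [] => .e
  | v :: l => .mk t v l

/-- multiply by the generator `u` of the factor `t` -/
def NF.act (t u : Bool) : NF → NF
  | .e => .mk t (V.sg u) []
  | .mk t' v l => if t' = t then
      (match V.add u v with
        | some v' => .mk t v' l
        | none => NF.of (!t) l)
      else .mk t (V.sg u) (v :: l)

/-- number of blocks -/
def NF.n : NF → ℕ
  | .e => 0
  | .mk _ _ l => l.length + 1

/-- the Lyapunov function of the first walk in phase `P` -/
def NF.H (P : Bool) : NF → ℤ
  | .e => 15
  | .mk t v l => 26 * (l.length + 1) +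
      (if t = P then (if v = .ab then 3 else 0) else (if v = .ab then 16 else 15))

/-- the number of blocks whose type is not `i` -/
def NF.psi (i : Bool) : NF → ℕ
  | .e => 0
  | .mk t _ l => if t = i then (l.length + 1) / 2 else (l.length + 2) / 2

/-! ## 4. The Coxeter group `((Z/2)^2 * (Z/2)^2)^N × (Z/2)^{*2m}` -/

/-- generators: `inl (j, t, u)` is the generator `u` of the factor `t` of the copy `j` -/
abbrev Gn (N m : ℕ) : Type := (Fin N × Bool × Bool) ⊕ Lab m

/-- the entries of the Coxeter matrix (`0` stands for `∞`) -/
def ent {N m : ℕ} : Gn N m → Gn N m → ℕ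
  | .inl (j, t, u), .inl (j', t', u') =>
      if j = j' then (if t = t' then (if u = u' then 1 else 2) else 0) else 2
  | .inr i, .inr k => if i = k then 1 else 0
  | .inl _, .inr _ => 2
  | .inr _, .inl _ => 2

/-- the Coxeter matrix -/
def mat (N m : ℕ) : CoxeterMatrix (Gn N m) where
  M := Matrix.of ent
  isSymm := by
    ext a b
    rcases a with ⟨j, t, u⟩ | i <;> rcases b with ⟨j', t', u'⟩ | k <;>
      simp [Matrix.transpose_apply, ent, eq_comm]
  diagonal := by
    intro a
    rcases a with ⟨j, t, u⟩ | i <;> simp [ent]
  off_diagonal := by
    intro a b hab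
    rcases a with ⟨j, t, u⟩ | i <;> rcases b with ⟨j', t', u'⟩ | k <;> simp [ent] <;> aesop

/-- the group -/
abbrev GG (N m : ℕ) : Type := (mat N m).Group

/-- the Coxeter system -/
abbrev cs (N m : ℕ) : CoxeterSystem (mat N m) (GG N m) := (mat N m).toCoxeterSystem

/-- the generators of the group -/
abbrev sm {N m : ℕ} (b : Gn N m) : GG N m := (cs N m).simple b

/-! ## 5. Rate fields -/

/-- the first rate field, at a vertex with tree component `y` -/
noncomputable def fld1 {N : ℕ} (c : List (Lab m) → X m) (y : List (Lab m)) : Gn N m → ℝ
  | .inl (_, t, _) => if (c y).l.1 = t then 1 else 0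
  | .inr i => if (c y).p i = flip (c y).l then 1 else 0

/-- the second rate field -/
noncomputable def fld2 {N : ℕ} (c : List (Lab m) → X m) (y : List (Lab m)) : Gn N m → ℝ
  | .inl (_, t, _) => if Free (c y).l ∨ (c y).l.1 = t then 1 else 0
  | .inr i => if ((c y).p i).1 = (c y).l.1 then 1 else 0

end Pool.Agent.MR
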