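import Pool.Agent.Lib.MP_34a06d_pr.Group

set_option autoImplicit false

namespace Pool.Agent.MR

open Equiv

variable {N m : ℕ}

/-- drift of one copy in the first walk -/
theorem H_drift (P : Bool) (x : NF) :
    7 ≤ (NF.H P (x.act P false) - NF.H P x) + (NF.H P (x.act P true) - NF.H P x) +
      (NF.H (!P) x - NF.H P x) := by
  rcases x with _ | ⟨t, v, l⟩
  · cases P <;> simp [NF.act, NF.H, V.sg]
  · rcases l with _ | ⟨w, l⟩
    · cases P <;> cases t <;> cases v <;>
        simp [NF.act, NF.H, V.sg, V.add, NF.of]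
    · cases P <;> cases t <;> cases v <;> cases w <;>
        simp [NF.act, NF.H, V.sg, V.add, NF.of] <;> omega

theorem H_le (P : Bool) (x : NF) : NF.H P x ≤ 26 * x.n + 16 := by
  rcases x with _ | ⟨t, v, l⟩
  · simp [NF.H, NF.n]
  · simp only [NF.H, NF.n]
    push_cast
    split_ifs <;> omega

theorem psi_act_same (i u : Bool) (x : NF) : (x.act i u).psi i = x.psi i := by
  rcases x with _ | ⟨t, v, l⟩
  · simp [NF.act, NF.psi]
  · rcases l with _ | ⟨w, l⟩
    · cases i <;> cases t <;> cases v <;> cases u <;>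
        simp [NF.act, NF.psi, V.sg, V.add, NF.of]
    · cases i <;> cases t <;> cases v <;> cases u <;>
        simp [NF.act, NF.psi, V.sg, V.add, NF.of] <;> omega

theorem psi_act_other (i u : Bool) (x : NF) : (x.act (!i) u).psi i ≤ x.psi i + 1 := by
  rcases x with _ | ⟨t, v, l⟩
  · cases i <;> simp [NF.act, NF.psi]
  · rcases l with _ | ⟨w, l⟩
    · cases i <;> cases t <;> cases v <;> cases u <;>
        simp [NF.act, NF.psi, V.sg, V.add, NF.of]
    · cases i <;> cases t <;> cases v <;> cases u <;>
        simp [NF.act, NF.psi, V.sg, V.add, NF.of] <;> omega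

theorem n_le_psi (i : Bool) (x : NF) : x.n ≤ 2 * x.psi i + 1 := by
  rcases x with _ | ⟨t, v, l⟩
  · simp [NF.n]
  · simp only [NF.psi, NF.n]
    split_ifs <;> omega

/-- the Lyapunov function of the first walk -/
noncomputable def h1 (c : List (Lab m) → X m) (w : GG N m) : ℝ :=
  ∑ j : Fin N, (NF.H (c (ys w)).l.1 (xs j w) : ℝ)

/-- the Lyapunov function of the second walk -/
noncomputable def h2 (c : List (Lab m) → X m) (w : GG N m) : ℝ :=
  4 * ∑ j : Fin N, (NF.psi (c (ys w)).l.1 (xs j w) : ℝ) + (ys w).length +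
    (8 * N / m : ℝ) * (if Free (c (ys w)).l then 1 else 0)

private theorem Drift_sum_inl {F : Fin N → NF → ℝ} (w : GG N m) (j : Fin N) (t u : Bool) :
    ∑ k : Fin N, F k (xs k (w * sm (.inl (j, t, u)))) - ∑ k : Fin N, F k (xs k w) =
      F j ((xs j w).act t u) - F j (xs j w) := by
  rw [← Finset.sum_sub_distrib, Finset.sum_eq_single j]
  · rw [xs_mul_same]
  · intro k _ hk
    rw [xs_mul_ne k (.inl (j, t, u)) (by
      intro t' u' h
      simp only [Sum.inl.injEq, Prod.mk.injEq] at h
      exact hk h.1.symm), sub_self]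
  · intro h
    exact absurd (Finset.mem_univ j) h

theorem drift1 {c : List (Lab m) → X m} (hc : Bal c) (w : GG N m) :
    7 * N ≤ ∑ b, fld1 c (ys w) b * (h1 c (w * sm b) - h1 c w) := by
  set y := ys w with hy
  set P := (c y).l.1 with hP
  have hR : ∀ b : Lab m, fld1 (N := N) c y (.inr b) * (h1 c (w * sm (.inr b)) - h1 c w) =
      if b = (c y).p.symm (flip (c y).l) then
        ∑ j : Fin N, ((NF.H (!P) (xs j w) : ℝ) - (NF.H P (xs j w) : ℝ)) else 0 := by
    intro b
    have hxs : ∀ j : Fin N, xs j (w * sm (.inr b)) = xs j w := fun j =>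
      xs_mul_ne j _ (by intro t u h; cases h) w
    by_cases hb : (c y).p b = flip (c y).l
    · have hb' : b = (c y).p.symm (flip (c y).l) := by rw [← hb, Equiv.symm_apply_apply]
      rw [if_pos hb']
      simp only [fld1, if_pos hb, one_mul, h1, hxs]
      rw [ys_mul_inr, hc, ← hy, hb, ← Finset.sum_sub_distrib]
      rfl
    · have hb' : ¬ b = (c y).p.symm (flip (c y).l) := by
        intro h; exact hb (by rw [h, Equiv.apply_symm_apply])
      rw [if_neg hb']
      simp only [fld1, if_neg hb, zero_mul]
  have hL : ∀ j t u, fld1 c y (.inl (j, t, u)) * (h1 c (w * sm (.inl (j, t, u))) - h1 c w) =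
      if P = t then ((NF.H P ((xs j w).act t u) : ℝ) - (NF.H P (xs j w) : ℝ)) else 0 := by
    intro j t u
    have h1' : h1 c (w * sm (.inl (j, t, u))) - h1 c w =
        (NF.H P ((xs j w).act t u) : ℝ) - (NF.H P (xs j w) : ℝ) := by
      unfold h1
      rw [ys_mul_inl, ← hy, ← hP]
      exact Drift_sum_inl (F := fun _ x => (NF.H P x : ℝ)) w j t u
    rw [h1']
    simp only [fld1]
    rw [← hP]
    split_ifs <;> simp
  rw [Fintype.sum_sum_type]
  simp_rw [hR]
  rw [Finset.sum_ite_eq' Finset.univ ((c y).p.symm (flip (c y).l)), if_pos (Finset.mem_univ _)]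
  rw [Fintype.sum_prod_type]
  simp_rw [Fintype.sum_prod_type, hL]
  rw [← Finset.sum_add_distrib]
  have h7 : ∀ j : Fin N, (7 : ℝ) ≤ (∑ t : Bool, ∑ u : Bool,
      (if P = t then ((NF.H P ((xs j w).act t u) : ℝ) - (NF.H P (xs j w) : ℝ)) else 0)) +
        ((NF.H (!P) (xs j w) : ℝ) - (NF.H P (xs j w) : ℝ)) := by
    intro j
    have h := H_drift P (xs j w)
    have h' : (7 : ℝ) ≤ ((NF.H P ((xs j w).act P false) : ℝ) - NF.H P (xs j w)) +
        ((NF.H P ((xs j w).act P true) : ℝ) - NF.H P (xs j w)) +
        ((NF.H (!P) (xs j w) : ℝ) - NF.H P (xs j w)) := by exact_mod_cast h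
    have e : (∑ t : Bool, ∑ u : Bool,
      (if P = t then ((NF.H P ((xs j w).act t u) : ℝ) - (NF.H P (xs j w) : ℝ)) else 0)) =
        ((NF.H P ((xs j w).act P false) : ℝ) - NF.H P (xs j w)) +
        ((NF.H P ((xs j w).act P true) : ℝ) - NF.H P (xs j w)) := by
      rw [Finset.sum_eq_single P]
      · simp only [if_true, Fintype.sum_bool]
        ring
      · intro t _ ht
        simp [Ne.symm ht]
      · intro h; exact absurd (Finset.mem_univ _) h
    rw [e]
    exact h'
  calc (7 : ℝ) * N = ∑ _j : Fin N, (7 : ℝ) := by simp [mul_comm]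
    _ ≤ _ := Finset.sum_le_sum fun j _ => h7 j

private theorem Drift_length_nb (i : Lab m) (y : List (Lab m)) :
    ((nb i y).length : ℝ) - y.length ≤ 1 := by
  have h : (nb i y).length ≤ y.length + 1 := by
    rcases y with _ | ⟨j, q⟩
    · simp [nb]
    · simp only [nb]
      split_ifs
      · simp only [List.length_cons]; omega
      · simp
  have h' : ((nb i y).length : ℝ) ≤ y.length + 1 := by exact_mod_cast h
  linarith

private theorem Drift_card_type (P : Bool) :
    ∑ s : Lab m, (if s.1 = P then (1 : ℝ) else 0) = m := by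
  rw [Fintype.sum_prod_type, Fintype.sum_bool]
  cases P <;> simp

private theorem Drift_card_free (P : Bool) :
    ∑ s : Lab m, (if s.1 = P then (if Free s then (1 : ℝ) else 0) else 0) ≤ 2 := by
  rw [Fintype.sum_prod_type, Finset.sum_eq_single P]
  · have hfr : ∀ x : Fin m, (if ((P, x) : Lab m).1 = P then
        (if Free ((P, x) : Lab m) then (1 : ℝ) else 0) else 0) = if x.val < 2 then 1 else 0 := by
      intro x
      by_cases h : x.val < 2 <;> simp [Free, h]
    refine (Finset.sum_congr rfl fun x _ => hfr x).le.trans ?_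
    rw [← Finset.sum_filter]
    simp only [Finset.sum_const, nsmul_eq_mul, mul_one]
    have : (Finset.univ.filter fun x : Fin m => x.val < 2).card ≤ 2 := by
      have h := Finset.card_le_card_of_injOn (s := Finset.univ.filter fun x : Fin m => x.val < 2)
        (t := Finset.range 2) (fun x => x.val) (by
          intro x hx
          simpa using hx) (by
          intro x _ y _ h
          exact Fin.ext h)
      simpa using h
    exact_mod_cast this
  · intro b _ hb
    simp [hb]
  · intro h; exact absurd (Finset.mem_univ _) h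

theorem drift2 (hm : 2 ≤ m) {c : List (Lab m) → X m} (hc : Bal c) (w : GG N m) :
    ∑ b, fld2 c (ys w) b * (h2 c (w * sm b) - h2 c w) ≤ 2 * m + 16 * N / m := by
  have hm0 : (0 : ℝ) < m := by exact_mod_cast (by omega : 0 < m)
  set y := ys w with hy
  set P := (c y).l.1 with hP
  set φ : ℝ := if Free (c y).l then 1 else 0 with hφ
  have hK : (0 : ℝ) ≤ 8 * N / m := by positivity
  -- tree steps
  have hR : ∀ b : Lab m, fld2 (N := N) c y (.inr b) * (h2 c (w * sm (.inr b)) - h2 c w) ≤
      (fun s : Lab m => (if s.1 = P then (1 : ℝ) else 0) +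
        (8 * N / m) * ((if s.1 = P then (if Free s then (1 : ℝ) else 0) else 0) -
          φ * (if s.1 = P then (1 : ℝ) else 0))) ((c y).p b) := by
    intro b
    have hxs : ∀ j : Fin N, xs j (w * sm (.inr b)) = xs j w := fun j =>
      xs_mul_ne j _ (by intro t u h; cases h) w
    by_cases hb : ((c y).p b).1 = P
    · simp only [fld2, ← hP, if_pos hb, one_mul, h2, hxs]
      rw [ys_mul_inr, hc, ← hy, hb, ← hP, ← hφ]
      have := Drift_length_nb b y
      nlinarith
    · simp only [fld2, ← hP, if_neg hb]
      simp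
  have hRsum : ∑ b : Lab m, fld2 (N := N) c y (.inr b) *
      (h2 c (w * sm (.inr b)) - h2 c w) ≤ m + (8 * N / m) * (2 - φ * m) := by
    refine (Finset.sum_le_sum fun b _ => hR b).trans ?_
    refine (Equiv.sum_comp (c y).p (fun s : Lab m => (if s.1 = P then (1 : ℝ) else 0) +
        (8 * N / m) * ((if s.1 = P then (if Free s then (1 : ℝ) else 0) else 0) -
          φ * (if s.1 = P then (1 : ℝ) else 0)))).le.trans ?_
    rw [Finset.sum_add_distrib, ← Finset.mul_sum, Finset.sum_sub_distrib, ← Finset.mul_sum,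
      Drift_card_type]
    have := Drift_card_free (m := m) P
    nlinarith
  -- steps in the copies
  have hL : ∀ j t u, fld2 c y (.inl (j, t, u)) * (h2 c (w * sm (.inl (j, t, u))) - h2 c w) ≤
      if t = P then 0 else 4 * φ := by
    intro j t u
    have h2' : h2 c (w * sm (.inl (j, t, u))) - h2 c w =
        4 * ((NF.psi P ((xs j w).act t u) : ℝ) - (NF.psi P (xs j w) : ℝ)) := by
      unfold h2
      rw [ys_mul_inl, ← hy, ← hP]
      rw [← Drift_sum_inl (F := fun _ x => (NF.psi P x : ℝ)) w j t u]
      ring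
    rw [h2']
    by_cases ht : t = P
    · rw [if_pos ht, ht, psi_act_same]
      simp
    · rw [if_neg ht]
      have ht' : t = !P := by
        cases t <;> cases hPP : P <;> simp_all
      have hle : (NF.psi P ((xs j w).act t u) : ℝ) ≤ NF.psi P (xs j w) + 1 := by
        rw [ht']
        exact_mod_cast psi_act_other P u (xs j w)
      simp only [fld2, ← hP]
      by_cases hF : Free (c y).l
      · simp only [hF, true_or, if_true, hφ]
        linarith
      · have : ¬ (Free (c y).l ∨ P = t) := by
          rintro (h | h)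
          · exact hF h
          · exact ht h.symm
        rw [if_neg this, hφ, if_neg hF]
        simp
  rw [Fintype.sum_sum_type, Fintype.sum_prod_type]
  have hLsum : ∑ j : Fin N, ∑ a : Bool × Bool, fld2 c y (.inl (j, a)) *
      (h2 c (w * sm (.inl (j, a))) - h2 c w) ≤ N * (8 * φ) := by
    calc _ ≤ ∑ _j : Fin N, (8 * φ) := by
          refine Finset.sum_le_sum fun j _ => ?_
          rw [Fintype.sum_prod_type]
          refine (Finset.sum_le_sum fun t _ => Finset.sum_le_sum fun u _ => hL j t u).trans ?_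
          rw [Fintype.sum_bool]
          simp only [Fintype.sum_bool]
          cases P <;> simp <;> linarith
      _ = _ := by simp
  have h8 : (8 * N / m : ℝ) * (φ * m) = 8 * N * φ := by field_simp
  have h16 : (8 * N / m : ℝ) * 2 = 16 * N / m := by ring
  calc _ ≤ N * (8 * φ) + (m + (8 * N / m) * (2 - φ * m)) := add_le_add hLsum hRsum
    _ = m + 16 * N / m := by rw [mul_sub, h8, h16]; ring
    _ ≤ _ := by linarith

end Pool.Agent.MR
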