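import Pool.Agent.Lib.MP_34a06d_pr.Defs

set_option autoImplicit false

namespace Pool.Agent.MR

open Equiv

variable {N m : ℕ}

lemma V.add_sg_self (u : Bool) : V.add u (V.sg u) = none := by cases u <;> rfl

lemma V.add_some (u : Bool) (v v' : V) (h : V.add u v = some v') : V.add u v' = some v := by
  cases u <;> cases v <;> cases v' <;> simp_all [V.add]

lemma V.add_none (u : Bool) (v : V) (h : V.add u v = none) : v = V.sg u := by
  cases u <;> cases v <;> simp_all [V.add, V.sg]

theorem act_act (t u : Bool) (x : NF) : (x.act t u).act t u = x := by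
  cases x with
  | e => simp [NF.act, V.add_sg_self, NF.of]
  | mk t' v l =>
    by_cases ht : t' = t
    · subst ht
      rcases h : V.add u v with _ | v'
      · have hv := V.add_none u v h
        cases l with
        | nil => subst hv; simp [NF.act, V.add_sg_self, NF.of]
        | cons w l => subst hv; simp [NF.act, V.add_sg_self, NF.of]
      · simp [NF.act, h, V.add_some u v v' h]
    · simp [NF.act, ht, V.add_sg_self, NF.of]
      cases t <;> cases t' <;> simp_all

theorem act_comm (t u u' : Bool) (x : NF) : (x.act t u).act t u' = (x.act t u').act t u := by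
  cases x with
  | e => cases u <;> cases u' <;> simp [NF.act, V.add, V.sg, NF.of]
  | mk t' v l =>
    by_cases ht : t' = t
    · subst ht
      cases l with
      | nil => cases u <;> cases u' <;> cases v <;> simp [NF.act, V.add, V.sg, NF.of]
      | cons w l => cases u <;> cases u' <;> cases v <;> simp [NF.act, V.add, V.sg, NF.of]
    · cases u <;> cases u' <;> simp [NF.act, ht, V.add, V.sg, NF.of]

theorem Rdc_tail {j : Lab m} {q : List (Lab m)} (h : Rdc (j :: q)) : Rdc q := by
  cases q with
  | nil => trivial
  | cons k q => exact h.2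

theorem Rdc_nb (i : Lab m) {y : List (Lab m)} (hy : Rdc y) : Rdc (nb i y) := by
  cases y with
  | nil => trivial
  | cons j q =>
    by_cases h : j = i
    · simp only [nb, if_pos h]
      exact Rdc_tail hy
    · simp only [nb, if_neg h]
      exact ⟨fun h' => h h'.symm, hy⟩

theorem nb_nb (i : Lab m) {y : List (Lab m)} (hy : Rdc y) : nb i (nb i y) = y := by
  cases y with
  | nil => simp [nb]
  | cons j q =>
    by_cases h : j = i
    · subst h
      simp only [nb, if_true]
      cases q with
      | nil => rfl
      | cons k q =>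
        have : k ≠ j := fun h => hy.1 h.symm
        simp [nb, this]
    · simp [nb, h]

lemma lm_cons (k j : Lab m) (q : List (Lab m)) (h : ¬ (j = k ∧ q = [])) :
    lm k (j :: q) = j :: lm k q := by
  cases q with
  | nil =>
    have : j ≠ k := fun h' => h ⟨h', rfl⟩
    simp [lm, this]
  | cons a q => rfl

theorem nb_lm (i k : Lab m) {y : List (Lab m)} (hy : Rdc y) : nb i (lm k y) = lm k (nb i y) := by
  cases y with
  | nil =>
    by_cases h : k = i
    · subst h; simp [nb, lm]
    · have : i ≠ k := fun h' => h h'.symm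
      simp [nb, lm, h, this]
  | cons j q =>
    by_cases hjk : j = k ∧ q = []
    · obtain ⟨rfl, rfl⟩ := hjk
      by_cases h : j = i
      · subst h; simp [nb, lm]
      · simp [nb, lm, h]
    · rw [lm_cons k j q hjk]
      by_cases h : j = i
      · simp [nb, h]
      · simp only [nb, if_neg h]
        rw [lm_cons k i (j :: q) (by simp), lm_cons k j q hjk]

/-- the involution of the normal forms -/
def actP (t u : Bool) : Perm NF := ⟨NF.act t u, NF.act t u, act_act t u, act_act t u⟩

/-- the involution of the reduced words -/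
def nbP (i : Lab m) : Perm {y : List (Lab m) // Rdc y} :=
  ⟨fun y => ⟨nb i y.1, Rdc_nb i y.2⟩, fun y => ⟨nb i y.1, Rdc_nb i y.2⟩,
    fun y => Subtype.ext (nb_nb i y.2), fun y => Subtype.ext (nb_nb i y.2)⟩

lemma actP_sq (t u : Bool) : actP t u * actP t u = 1 := by
  ext x; exact act_act t u x

lemma actP_comm (t u u' : Bool) : (actP t u * actP t u') ^ 2 = 1 := by
  have h : actP t u * actP t u' = actP t u' * actP t u := by
    ext x; exact act_comm t u' u x
  rw [pow_two]
  nth_rewrite 2 [h]
  rw [mul_assoc, ← mul_assoc (actP t u'), actP_sq, one_mul, actP_sq]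

/-- the action of the generators on the normal forms of copy `j` -/
def gen1 (j : Fin N) : Gn N m → Perm NF
  | .inl (j', t, u) => if j' = j then actP t u else 1
  | .inr _ => 1

def gen2 : Gn N m → Perm {y : List (Lab m) // Rdc y}
  | .inl _ => 1
  | .inr i => nbP i

/-- the action on the normal forms of copy `j` -/
theorem exists_rho1 (j : Fin N) : ∃ ρ : GG N m →* Perm NF,
    (∀ t u x, ρ (sm (.inl (j, t, u))) x = NF.act t u x) ∧
    (∀ b : Gn N m, (∀ t u, b ≠ .inl (j, t, u)) → ρ (sm b) = 1) := by
  have hl : (mat N m).IsLiftable (gen1 j) := by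
    intro a b
    rcases a with ⟨j₁, t, u⟩ | i <;> rcases b with ⟨j₂, t', u'⟩ | k
    · show (gen1 j (.inl (j₁, t, u)) * gen1 j (.inl (j₂, t', u'))) ^
        (ent (.inl (j₁, t, u) : Gn N m) (.inl (j₂, t', u') : Gn N m) : ℕ) = 1
      simp only [gen1, ent]
      by_cases h12 : j₁ = j₂
      · subst h12
        rw [if_pos rfl]
        by_cases h1 : j₁ = j
        · rw [if_pos h1, if_pos h1]
          by_cases ht : t = t'
          · subst ht
            rw [if_pos rfl]
            by_cases hu : u = u'
            · subst hu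
              rw [if_pos rfl, pow_one, actP_sq]
            · rw [if_neg hu, actP_comm]
          · rw [if_neg ht, pow_zero]
        · rw [if_neg h1, if_neg h1]; simp
      · rw [if_neg h12]
        by_cases h1 : j₁ = j
        · have h2 : j₂ ≠ j := fun h => h12 (h1.trans h.symm)
          rw [if_pos h1, if_neg h2, mul_one, pow_two, actP_sq]
        · rw [if_neg h1, one_mul]
          by_cases h2 : j₂ = j
          · rw [if_pos h2, pow_two, actP_sq]
          · rw [if_neg h2, one_pow]
    · show (gen1 j (.inl (j₁, t, u)) * gen1 j (.inr k)) ^ (2 : ℕ) = 1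
      simp only [gen1, mul_one]
      by_cases h1 : j₁ = j
      · rw [if_pos h1, pow_two, actP_sq]
      · rw [if_neg h1, one_pow]
    · show (gen1 j (.inr i) * gen1 j (.inl (j₂, t', u'))) ^ (2 : ℕ) = 1
      simp only [gen1, one_mul]
      by_cases h1 : j₂ = j
      · rw [if_pos h1, pow_two, actP_sq]
      · rw [if_neg h1, one_pow]
    · simp [gen1]
  refine ⟨(cs N m).lift ⟨gen1 j, hl⟩, ?_, ?_⟩
  · intro t u x
    rw [(cs N m).lift_apply_simple]
    simp [gen1, actP]
  · intro b hb
    rw [(cs N m).lift_apply_simple]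
    rcases b with ⟨j', t, u⟩ | i
    · have : j' ≠ j := by
        rintro rfl
        exact hb t u rfl
      simp [gen1, this]
    · rfl

/-- the action on reduced words -/
theorem exists_rho2 : ∃ ρ : GG N m →* Perm {y : List (Lab m) // Rdc y},
    (∀ i y, (ρ (sm (.inr i)) y).1 = nb i y.1) ∧
    (∀ a, ρ (sm (.inl a)) = 1) := by
  have hsq : ∀ i : Lab m, nbP i * nbP i = 1 := by
    intro i
    ext y : 1
    exact Subtype.ext (nb_nb i y.2)
  have hl : (mat N m).IsLiftable gen2 := by
    intro a b
    rcases a with a | i <;> rcases b with b | k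
    · simp [gen2]
    · show (gen2 (.inl a) * gen2 (.inr k)) ^ (2 : ℕ) = 1
      simp only [gen2, one_mul]
      rw [pow_two, hsq]
    · show (gen2 (.inr i) * gen2 (.inl b)) ^ (2 : ℕ) = 1
      simp only [gen2, mul_one]
      rw [pow_two, hsq]
    · show (gen2 (.inr i) * gen2 (.inr k)) ^ (ent (.inr i) (.inr k : Gn N m) : ℕ) = 1
      simp only [gen2, ent]
      by_cases h : i = k
      · subst h
        rw [if_pos rfl, pow_one, hsq]
      · rw [if_neg h, pow_zero]
  refine ⟨(cs N m).lift ⟨gen2, hl⟩, ?_, ?_⟩
  · intro i y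
    rw [(cs N m).lift_apply_simple]
    rfl
  · intro a
    rw [(cs N m).lift_apply_simple]
    rfl

noncomputable def rho1 (j : Fin N) : GG N m →* Perm NF := (exists_rho1 j).choose

noncomputable def rho2 : GG N m →* Perm {y : List (Lab m) // Rdc y} := (exists_rho2).choose

/-- the normal form of the component in copy `j` -/
noncomputable def xs (j : Fin N) (w : GG N m) : NF := rho1 j w⁻¹ .e

/-- the (reversed) reduced word of the tree component -/
noncomputable def ys (w : GG N m) : List (Lab m) := (rho2 w⁻¹ ⟨[], trivial⟩).1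

theorem xs_one (j : Fin N) : xs j (1 : GG N m) = .e := by
  simp [xs]

theorem xs_mul_same (j : Fin N) (t u : Bool) (w : GG N m) :
    xs j (w * sm (.inl (j, t, u))) = NF.act t u (xs j w) := by
  unfold xs
  rw [mul_inv_rev, (cs N m).inv_simple, map_mul, Perm.mul_apply]
  exact (exists_rho1 (m := m) j).choose_spec.1 t u _

theorem xs_mul_ne (j : Fin N) (b : Gn N m) (hb : ∀ t u, b ≠ .inl (j, t, u)) (w : GG N m) :
    xs j (w * sm b) = xs j w := by
  unfold xs
  rw [mul_inv_rev, (cs N m).inv_simple, map_mul, Perm.mul_apply]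
  have : rho1 j (sm b) = 1 := (exists_rho1 (m := m) j).choose_spec.2 b hb
  rw [this, Perm.one_apply]

theorem ys_one : ys (1 : GG N m) = [] := by
  simp [ys]

theorem Rdc_ys (w : GG N m) : Rdc (ys w) := (rho2 w⁻¹ ⟨[], trivial⟩).2

theorem ys_mul_inr (i : Lab m) (w : GG N m) : ys (w * sm (.inr i)) = nb i (ys w) := by
  unfold ys
  rw [mul_inv_rev, (cs N m).inv_simple, map_mul, Perm.mul_apply]
  exact (exists_rho2 (N := N) (m := m)).choose_spec.1 i _

theorem ys_mul_inl (a : Fin N × Bool × Bool) (w : GG N m) : ys (w * sm (.inl a)) = ys w := by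
  unfold ys
  rw [mul_inv_rev, (cs N m).inv_simple, map_mul, Perm.mul_apply]
  have : rho2 (sm (.inl a) : GG N m) = 1 := (exists_rho2 (N := N) (m := m)).choose_spec.2 a
  rw [this, Perm.one_apply]

theorem ys_inr_mul (i : Lab m) (w : GG N m) : ys (sm (.inr i) * w) = lm i (ys w) := by
  induction w using (cs N m).simple_induction_right with
  | one =>
    have h := ys_mul_inr (N := N) i 1
    rw [one_mul, ys_one] at h
    rw [mul_one, h, ys_one]
    rfl
  | mul_simple_right w b ih =>
    rw [← mul_assoc]
    rcases b with a | k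
    · rw [ys_mul_inl, ys_mul_inl, ih]
    · rw [ys_mul_inr, ys_mul_inr, ih, nb_lm k i (Rdc_ys w)]

theorem ys_inl_mul (a : Fin N × Bool × Bool) (w : GG N m) : ys (sm (.inl a) * w) = ys w := by
  induction w using (cs N m).simple_induction_right with
  | one =>
    have h := ys_mul_inl a (1 : GG N m)
    rw [one_mul] at h
    rw [mul_one, h]
  | mul_simple_right w b ih =>
    rw [← mul_assoc]
    rcases b with c | k
    · rw [ys_mul_inl, ys_mul_inl, ih]
    · rw [ys_mul_inr, ys_mul_inr, ih]

end Pool.Agent.MR
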