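import Pool.Agent.Lib.MP_34a06d_pr.Group

set_option autoImplicit false

namespace Pool.Agent.MR

open Equiv

variable {N m : ℕ}

theorem length_n_act (t u : Bool) (x : NF) : (x.act t u).n ≤ x.n + 1 := by
  rcases x with _ | ⟨t', v, l⟩
  · simp [NF.act, NF.n]
  · cases t <;> cases t' <;> cases u <;> cases v <;> cases l <;>
      simp [NF.act, V.sg, V.add, NF.of, NF.n]

theorem length_sum_wordProd (L : List (Gn N m)) :
    ∑ j, (xs j ((cs N m).wordProd L)).n ≤ L.length := by
  induction L using List.reverseRecOn with
  | nil =>
    have h : ∀ j : Fin N, (xs j ((cs N m).wordProd [])).n = 0 := by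
      intro j
      rw [CoxeterSystem.wordProd_nil, xs_one]
      rfl
    exact (Finset.sum_eq_zero fun j _ => h j).le.trans (Nat.zero_le _)
  | append_singleton L b ih =>
    rw [CoxeterSystem.wordProd_append, CoxeterSystem.wordProd_singleton, List.length_append]
    have hlen : [b].length = 1 := rfl
    rw [hlen]
    rcases b with ⟨j, t, u⟩ | i
    · have h1 : ∀ k, (xs k ((cs N m).wordProd L * sm (.inl (j, t, u)))).n
          ≤ (xs k ((cs N m).wordProd L)).n + if k = j then 1 else 0 := by
        intro k
        by_cases hk : k = j
        · subst hk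
          rw [xs_mul_same]
          simpa using length_n_act t u _
        · rw [xs_mul_ne k _ (by intro t' u' h; simp only [Sum.inl.injEq, Prod.mk.injEq] at h
                                exact hk h.1.symm)]
          simp
      calc ∑ k, (xs k ((cs N m).wordProd L * sm (.inl (j, t, u)))).n
          ≤ ∑ k, ((xs k ((cs N m).wordProd L)).n + if k = j then 1 else 0) :=
            Finset.sum_le_sum fun k _ => h1 k
        _ = (∑ k, (xs k ((cs N m).wordProd L)).n) + 1 := by
            rw [Finset.sum_add_distrib]
            simp
        _ ≤ L.length + 1 := by omega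
    · have h1 : ∀ k, (xs k ((cs N m).wordProd L * sm (.inr i))).n
          = (xs k ((cs N m).wordProd L)).n := by
        intro k
        rw [xs_mul_ne k _ (by intro t' u' h; cases h)]
      calc ∑ k, (xs k ((cs N m).wordProd L * sm (.inr i))).n
          = ∑ k, (xs k ((cs N m).wordProd L)).n := Finset.sum_congr rfl fun k _ => h1 k
        _ ≤ L.length + 1 := by omega

theorem sum_n_le_length (w : GG N m) : ∑ j, (xs j w).n ≤ (cs N m).length w := by
  obtain ⟨L, hL, rfl⟩ := (cs N m).exists_isReduced w
  rw [hL.eq]
  exact length_sum_wordProd L

/-! ### The upper bound -/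

/-- the element of a block -/
noncomputable def lengthV (j : Fin N) (t : Bool) : V → GG N m
  | .a => sm (.inl (j, t, false))
  | .b => sm (.inl (j, t, true))
  | .ab => sm (.inl (j, t, false)) * sm (.inl (j, t, true))

/-- the element of a list of blocks -/
noncomputable def lengthL (j : Fin N) : Bool → List V → GG N m
  | _, [] => 1
  | t, v :: l => lengthL j (!t) l * lengthV j t v

/-- the element of a normal form -/
noncomputable def lengthE (j : Fin N) : NF → GG N m
  | .e => 1
  | .mk t v l => lengthL j (!t) l * lengthV j t v

/-- the element of a word of the tree -/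
noncomputable def lengthT : List (Lab m) → GG N m
  | [] => 1
  | i :: q => lengthT q * sm (.inr i)

theorem length_sm_sq (b : Gn N m) : sm b * sm b = 1 := (cs N m).simple_mul_simple_self b

theorem length_sm_comm (b b' : Gn N m) (h : ent b b' = 2) : sm b * sm b' = sm b' * sm b := by
  have h1 := (cs N m).simple_mul_simple_pow b b'
  have h2 : (mat N m).M b b' = 2 := h
  rw [h2, pow_two] at h1
  have h3 : sm b * sm b' * (sm b * sm b') = 1 := h1
  calc sm b * sm b' = sm b * sm b' * (sm b * sm b') * (sm b' * sm b) := by
        rw [show sm b * sm b' * (sm b * sm b') * (sm b' * sm b)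
          = sm b * sm b' * (sm b * (sm b' * sm b') * sm b) by group, length_sm_sq, mul_one,
          length_sm_sq, mul_one]
    _ = sm b' * sm b := by rw [h3, one_mul]

theorem length_comm_same (j : Fin N) (t : Bool) :
    (sm (.inl (j, t, true)) : GG N m) * sm (.inl (j, t, false))
      = sm (.inl (j, t, false)) * sm (.inl (j, t, true)) :=
  length_sm_comm _ _ (by simp [ent])

theorem length_V_sg (j : Fin N) (t u : Bool) :
    lengthV j t (V.sg u) = (sm (.inl (j, t, u)) : GG N m) := by
  cases u <;> rfl

theorem length_V_add (j : Fin N) (t u : Bool) (v v' : V) (h : V.add u v = some v') :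
    (lengthV j t v' : GG N m) = lengthV j t v * sm (.inl (j, t, u)) := by
  cases u <;> cases v <;> simp only [V.add, if_true, if_false, Bool.false_eq_true,
    Option.some.injEq, reduceCtorEq] at h
  · subst h
    simp only [lengthV]
    rw [length_comm_same]
  · subst h
    simp only [lengthV]
    rw [mul_assoc, length_comm_same, ← mul_assoc, length_sm_sq, one_mul]
  · subst h
    simp only [lengthV]
  · subst h
    simp only [lengthV]
    rw [mul_assoc, length_sm_sq, mul_one]

theorem length_V_add_none (j : Fin N) (t u : Bool) (v : V) (h : V.add u v = none) :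
    (lengthV j t v : GG N m) * sm (.inl (j, t, u)) = 1 := by
  cases u <;> cases v <;> simp only [V.add, if_true, if_false, Bool.false_eq_true,
    reduceCtorEq] at h
  · exact length_sm_sq _
  · exact length_sm_sq _

theorem length_E_act (j : Fin N) (t u : Bool) (x : NF) :
    (lengthE j (x.act t u) : GG N m) = lengthE j x * sm (.inl (j, t, u)) := by
  rcases x with _ | ⟨t', v, l⟩
  · simp only [NF.act, lengthE, lengthL, one_mul]
    exact length_V_sg j t u
  · by_cases ht : t' = t
    · subst ht
      rcases h : V.add u v with _ | v'
      · simp only [NF.act, if_true, h]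
        rw [show (lengthE j (NF.mk t' v l) : GG N m) = lengthL j (!t') l * lengthV j t' v from rfl,
          mul_assoc, length_V_add_none j t' u v h, mul_one]
        cases l <;> rfl
      · simp only [NF.act, if_true, h, lengthE]
        rw [length_V_add j t' u v v' h, mul_assoc]
    · simp only [NF.act, ht, if_false, lengthE, lengthL]
      rw [length_V_sg]
      have : t' = !t := by cases t <;> cases t' <;> simp_all
      rw [this]

theorem length_T_nb (i : Lab m) (y : List (Lab m)) :
    (lengthT (nb i y) : GG N m) = lengthT y * sm (.inr i) := by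
  rcases y with _ | ⟨k, q⟩
  · rfl
  · by_cases h : k = i
    · subst h
      simp only [nb, if_true, lengthT]
      rw [mul_assoc, length_sm_sq, mul_one]
    · simp only [nb, h, if_false, lengthT]

theorem length_V_le (j : Fin N) (t : Bool) (v : V) :
    (cs N m).length (lengthV j t v) ≤ 2 := by
  cases v
  · exact ((cs N m).length_simple _).le.trans (by norm_num)
  · exact ((cs N m).length_simple _).le.trans (by norm_num)
  · refine ((cs N m).length_mul_le _ _).trans ?_
    rw [(cs N m).length_simple, (cs N m).length_simple]

theorem length_L_le (j : Fin N) (l : List V) : ∀ t : Bool,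
    (cs N m).length (lengthL j t l) ≤ 2 * l.length := by
  induction l with
  | nil => intro t; simp [lengthL]
  | cons v l ih =>
    intro t
    simp only [lengthL, List.length_cons]
    have h1 := (cs N m).length_mul_le (lengthL j (!t) l) (lengthV j t v)
    have h2 := ih (!t)
    have h3 := length_V_le (m := m) j t v
    omega

theorem length_E_le (j : Fin N) (x : NF) : (cs N m).length (lengthE j x) ≤ 2 * x.n := by
  rcases x with _ | ⟨t, v, l⟩
  · simp [lengthE]
  · simp only [lengthE, NF.n]
    have h1 := (cs N m).length_mul_le (lengthL j (!t) l) (lengthV j t v)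
    have h2 := length_L_le (m := m) j l (!t)
    have h3 := length_V_le (m := m) j t v
    omega

theorem length_T_le (y : List (Lab m)) : (cs N m).length (lengthT y) ≤ y.length := by
  induction y with
  | nil => simp [lengthT]
  | cons i q ih =>
    simp only [lengthT, List.length_cons]
    have h1 := (cs N m).length_mul_le (lengthT q) (sm (.inr i))
    have h2 : (cs N m).length (sm (.inr i)) = 1 := (cs N m).length_simple _
    omega

/-! ### Commutation -/

theorem length_comm_V (j : Fin N) (b : Gn N m) (hb : ∀ t u, ent (.inl (j, t, u)) b = 2)
    (t : Bool) (v : V) : (lengthV j t v : GG N m) * sm b = sm b * lengthV j t v := by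
  have h := fun u => length_sm_comm (.inl (j, t, u)) b (hb t u)
  cases v
  · exact h false
  · exact h true
  · simp only [lengthV]
    rw [mul_assoc, h true, ← mul_assoc, h false, mul_assoc]

theorem length_comm_L (j : Fin N) (b : Gn N m) (hb : ∀ t u, ent (.inl (j, t, u)) b = 2)
    (l : List V) : ∀ t : Bool, (lengthL j t l : GG N m) * sm b = sm b * lengthL j t l := by
  induction l with
  | nil => intro t; simp [lengthL]
  | cons v l ih =>
    intro t
    simp only [lengthL]
    rw [mul_assoc, length_comm_V j b hb, ← mul_assoc, ih, mul_assoc]

theorem length_comm_E (j : Fin N) (b : Gn N m) (hb : ∀ t u, ent (.inl (j, t, u)) b = 2)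
    (x : NF) : (lengthE j x : GG N m) * sm b = sm b * lengthE j x := by
  rcases x with _ | ⟨t, v, l⟩
  · simp [lengthE]
  · simp only [lengthE]
    rw [mul_assoc, length_comm_V j b hb, ← mul_assoc, length_comm_L j b hb, mul_assoc]

theorem length_comm_T (a : Fin N × Bool × Bool) (y : List (Lab m)) :
    (lengthT y : GG N m) * sm (.inl a) = sm (.inl a) * lengthT y := by
  induction y with
  | nil => simp [lengthT]
  | cons i q ih =>
    simp only [lengthT]
    rw [mul_assoc, length_sm_comm (.inr i) (.inl a) (by simp [ent]), ← mul_assoc, ih, mul_assoc]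

theorem length_prod_comm {G : Type*} [Group G] {ι : Type*} (L : List ι) (f : ι → G) (s : G)
    (h : ∀ k ∈ L, f k * s = s * f k) : (L.map f).prod * s = s * (L.map f).prod := by
  induction L with
  | nil => simp
  | cons a L ih =>
    simp only [List.map_cons, List.prod_cons]
    rw [mul_assoc, ih (fun k hk => h k (List.mem_cons_of_mem _ hk)), ← mul_assoc,
      h a List.mem_cons_self, mul_assoc]

theorem length_prod_update {G : Type*} [Group G] {ι : Type*} [DecidableEq ι] (L : List ι)
    (hL : L.Nodup) (f g : ι → G) (s : G) (j : ι) (hj : j ∈ L) (hg : g j = f j * s)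
    (hg' : ∀ k, k ≠ j → g k = f k) (h : ∀ k, k ≠ j → f k * s = s * f k) :
    (L.map g).prod = (L.map f).prod * s := by
  induction L with
  | nil => simp at hj
  | cons a L ih =>
    rw [List.nodup_cons] at hL
    simp only [List.map_cons, List.prod_cons]
    by_cases ha : a = j
    · subst ha
      have hne : ∀ k ∈ L, k ≠ a := fun k hk hka => hL.1 (hka ▸ hk)
      have h1 : L.map g = L.map f := List.map_congr_left fun k hk => hg' k (hne k hk)
      rw [h1, hg, mul_assoc, mul_assoc, length_prod_comm L f s fun k hk => h k (hne k hk)]
    · have hj' : j ∈ L := by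
        rcases List.mem_cons.1 hj with h1 | h1
        · exact absurd h1.symm ha
        · exact h1
      rw [ih hL.2 hj', hg' a ha, mul_assoc]

theorem length_eq_prod (w : GG N m) :
    ((List.finRange N).map fun j => (lengthE j (xs j w) : GG N m)).prod * lengthT (ys w) = w := by
  induction w using (cs N m).simple_induction_right with
  | one =>
    rw [ys_one]
    have h : ((List.finRange N).map fun j => (lengthE j (xs j (1 : GG N m)) : GG N m)).prod = 1 := by
      apply List.prod_eq_one
      intro x hx
      obtain ⟨j, -, rfl⟩ := List.mem_map.1 hx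
      rw [xs_one]
      rfl
    rw [h]
    simp [lengthT]
  | mul_simple_right w b ih =>
    change ((List.finRange N).map fun j => (lengthE j (xs j (w * sm b)) : GG N m)).prod
      * lengthT (ys (w * sm b)) = w * sm b
    rcases b with ⟨j, t, u⟩ | i
    · rw [ys_mul_inl]
      rw [length_prod_update (List.finRange N) (List.nodup_finRange N)
        (fun k => (lengthE k (xs k w) : GG N m)) _ (sm (.inl (j, t, u))) j (List.mem_finRange j)
        (by rw [xs_mul_same, length_E_act]) ?_ ?_]
      · rw [mul_assoc, ← length_comm_T, ← mul_assoc, ih]
      · intro k hk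
        rw [xs_mul_ne k _ (by intro t' u' h; simp only [Sum.inl.injEq, Prod.mk.injEq] at h
                              exact hk h.1.symm)]
      · intro k hk
        exact length_comm_E k _ (by intro t' u'; simp [ent, hk]) _
    · have h1 : ∀ k, xs k (w * sm (.inr i)) = xs k w := by
        intro k
        rw [xs_mul_ne k _ (by intro t' u' h; cases h)]
      simp only [h1]
      rw [ys_mul_inr, length_T_nb, ← mul_assoc, ih]

theorem length_prod_le (L : List (Fin N)) (f : Fin N → GG N m) (B : Fin N → ℕ)
    (h : ∀ k, (cs N m).length (f k) ≤ B k) :
    (cs N m).length (L.map f).prod ≤ (L.map B).sum := by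
  induction L with
  | nil => simp
  | cons a L ih =>
    simp only [List.map_cons, List.prod_cons, List.sum_cons]
    have h1 := (cs N m).length_mul_le (f a) (L.map f).prod
    have h2 := h a
    omega

theorem length_le (w : GG N m) :
    (cs N m).length w ≤ ∑ j, 2 * (xs j w).n + (ys w).length := by
  have h1 := length_prod_le (List.finRange N) (fun j => (lengthE j (xs j w) : GG N m))
    (fun j => 2 * (xs j w).n) fun k => length_E_le k _
  have h2 := length_T_le (N := N) (ys w)
  have h3 := (cs N m).length_mul_le
    ((List.finRange N).map fun j => (lengthE j (xs j w) : GG N m)).prod (lengthT (ys w))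
  rw [length_eq_prod] at h3
  have h4 : ((List.finRange N).map fun j => 2 * (xs j w).n).sum = ∑ j, 2 * (xs j w).n := by
    rw [← List.ofFn_eq_map, List.sum_ofFn]
  rw [h4] at h1
  omega

end Pool.Agent.MR
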