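import Pool.Agent.Lib.MP_34a06d_pr.Meas

set_option autoImplicit false

namespace Pool.Agent.MR

open Equiv MeasureTheory

variable {m : ℕ}

private theorem PhiMP_ls {ω ω' : Om m} (y : List (Lab m))
    (h : ∀ q, q <:+ y → ω q = ω' q) : ls ω y = ls ω' y ∧ ls2 ω y = ls2 ω' y := by
  induction y with
  | nil =>
    have h0 := h [] (List.suffix_refl _)
    simp only [ls, ls2, h0, and_self]
  | cons j q ih =>
    obtain ⟨h1, h2⟩ := ih fun q' hq' => h q' (hq'.trans (List.suffix_cons j q))
    have h0 := h (j :: q) (List.suffix_refl _)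
    have h3 : ls ω (j :: q) = ls ω' (j :: q) := by
      simp only [ls, h1, h0]
    refine ⟨h3, ?_⟩
    simp only [ls2, h1, h2, h3]

private theorem PhiMP_bt {ω ω' : Om m} (y : List (Lab m))
    (h : ∀ q, q <:+ y → q ≠ y → ω q = ω' q) (hl : (ω y).l = (ω' y).l) : bt ω y = bt ω' y := by
  cases y with
  | nil => simp only [bt, hl]
  | cons j q =>
    obtain ⟨h1, h2⟩ := PhiMP_ls (ω := ω) (ω' := ω') q fun q' hq' =>
      h q' (hq'.trans (List.suffix_cons j q)) (fun he => by
        have := hq'.length_le
        rw [he, List.length_cons] at this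
        omega)
    simp only [bt, h1, h2]

private theorem PhiMP_back {ω ω' : Om m} (I : Finset (List (Lab m)))
    (hI : ∀ y ∈ I, ∀ q, q <:+ y → q ∈ I) (h : ∀ y ∈ I, Phi ω y = Phi ω' y) (y : List (Lab m)) :
    y ∈ I → ∀ q, q <:+ y → ω q = ω' q := by
  have key : ∀ z ∈ I, (∀ q, q <:+ z → q ≠ z → ω q = ω' q) → ω z = ω' z := by
    intro z hz hq
    have h1 := h z hz
    have hl : (ω z).l = (ω' z).l := by
      have h2 : (Phi ω z).l = (Phi ω' z).l := by rw [h1]
      exact h2
    have hp : bt ω z * (ω z).p = bt ω' z * (ω' z).p := by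
      have h2 : (Phi ω z).p = (Phi ω' z).p := by rw [h1]
      exact h2
    rw [PhiMP_bt z hq hl] at hp
    exact X.ext hl (mul_left_cancel hp)
  induction y with
  | nil =>
    intro hy q hq
    rw [List.suffix_nil] at hq
    subst hq
    refine key [] hy fun q hq hne => absurd ?_ hne
    exact List.suffix_nil.mp hq
  | cons j l ih =>
    intro hy q hq
    have hl := ih (hI _ hy _ (List.suffix_cons j l))
    rcases List.suffix_cons_iff.mp hq with h1 | h1
    · subst h1
      refine key (j :: l) hy fun q' hq' hne => ?_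
      rcases List.suffix_cons_iff.mp hq' with h2 | h2
      · exact absurd h2 hne
      · exact hl q' h2
    · exact hl q h1

theorem mp_Phi [NeZero m] : MeasurePreserving (Phi (m := m)) (mu m) (mu m) := by
  classical
  refine mp_of_finitary Phi fun I₀ => ?_
  set I : Finset (List (Lab m)) := I₀.biUnion (fun l => l.tails.toFinset) with hIdef
  have hI : ∀ y ∈ I, ∀ q, q <:+ y → q ∈ I := by
    intro y hy q hq
    rw [hIdef, Finset.mem_biUnion] at hy ⊢
    obtain ⟨l, hl, hyl⟩ := hy
    refine ⟨l, hl, ?_⟩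
    rw [List.mem_toFinset, List.mem_tails] at hyl ⊢
    exact hq.trans hyl
  refine ⟨I, ?_, ?_⟩
  · intro y hy
    rw [hIdef, Finset.mem_biUnion]
    exact ⟨y, hy, by rw [List.mem_toFinset, List.mem_tails]⟩
  · intro ω ω'
    constructor
    · intro h y hy
      have h1 : bt ω y = bt ω' y := PhiMP_bt y (fun q hq _ => h q (hI y hy q hq)) (by rw [h y hy])
      unfold Phi
      rw [h1, h y hy]
    · intro h y hy
      exact PhiMP_back I hI h y hy y (List.suffix_refl y)

end Pool.Agent.MR
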