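import Pool.Agent.Lib.MP_34a06d_pr.Defs

set_option autoImplicit false

namespace Pool.Agent.MR

open MeasureTheory Filter Topology

private theorem Poisson_one (x : ℝ) :
    HasSum (fun n : ℕ => Real.exp (-x) * x ^ n / (n.factorial : ℝ)) 1 := by
  have h2 : HasSum (fun n : ℕ => x ^ n / (n.factorial : ℝ)) (Real.exp x) := by
    rw [Real.exp_eq_exp_ℝ]
    exact NormedSpace.expSeries_div_hasSum_exp x
  have h3 := h2.mul_left (Real.exp (-x))
  rw [← Real.exp_add, neg_add_cancel, Real.exp_zero] at h3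
  refine h3.congr_fun ?_ 
  intro n
  ring

private theorem Poisson_mean (x : ℝ) :
    HasSum (fun n : ℕ => Real.exp (-x) * x ^ n / (n.factorial : ℝ) * (n : ℝ)) x := by
  have h := (Poisson_one x).mul_left x
  rw [mul_one] at h
  rw [← hasSum_nat_add_iff' 1]
  simp only [Finset.range_one, Finset.sum_singleton, Nat.cast_zero, mul_zero, sub_zero]
  refine h.congr_fun ?_
  intro n
  have hn : ((n.factorial : ℝ)) ≠ 0 := by positivity
  have hn1 : ((n : ℝ) + 1) ≠ 0 := by positivity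
  rw [Nat.factorial_succ]
  push_cast
  field_simp
  ring

private theorem Poisson_nonneg {x : ℝ} (hx : 0 ≤ x) (n : ℕ) :
    0 ≤ Real.exp (-x) * x ^ n / (n.factorial : ℝ) := by positivity

private theorem Poisson_lin {A : ℕ → ℝ} {v : ℝ} (h0 : ∀ n, 0 ≤ A n) (h1 : ∀ n, A n ≤ n)
    (h : Tendsto (fun n : ℕ => A n / n) atTop (𝓝 v)) {ε : ℝ} (hε : 0 < ε) :
    ∃ C : ℝ, 0 ≤ C ∧ ∀ n : ℕ, |A n - v * n| ≤ ε * n + C := by
  obtain ⟨M, hM⟩ := Metric.tendsto_atTop.1 h ε hε
  refine ⟨M * (1 + |v|), by positivity, fun n => ?_⟩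
  rcases Nat.eq_zero_or_pos n with hn0 | hn0
  · subst hn0
    have hA : A 0 = 0 := le_antisymm (by simpa using h1 0) (h0 0)
    simp only [hA, Nat.cast_zero, mul_zero, sub_zero, abs_zero, zero_add]
    positivity
  have hn : (0 : ℝ) < n := by exact_mod_cast hn0
  by_cases hle : M ≤ n
  · have h2 := hM n hle
    rw [Real.dist_eq] at h2
    have h3 : A n - v * n = (A n / n - v) * n := by field_simp
    rw [h3, abs_mul, abs_of_pos hn]
    have h4 : |A n / n - v| * n ≤ ε * n := mul_le_mul_of_nonneg_right h2.le hn.le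
    have h5 : (0 : ℝ) ≤ M * (1 + |v|) := by positivity
    linarith
  · have h2 : (n : ℝ) ≤ M := by exact_mod_cast (not_le.1 hle).le
    have h3 : |A n - v * n| ≤ |A n| + |v * n| := abs_sub _ _
    rw [abs_mul, abs_of_pos hn, abs_of_nonneg (h0 n)] at h3
    have h4 : |v| * n ≤ |v| * M := mul_le_mul_of_nonneg_left h2 (abs_nonneg v)
    have h5 := h1 n
    have h6 : 0 ≤ ε * n := by positivity
    nlinarith

/-- Poisson average: continuous time from discrete time -/
theorem poisson_avg {A : ℕ → ℝ} {v D : ℝ} (hD : 0 < D) (h0 : ∀ n, 0 ≤ A n) (h1 : ∀ n, A n ≤ n)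
    (h : Tendsto (fun n : ℕ => A n / n) atTop (𝓝 v)) :
    Tendsto (fun t : ℝ => (∑' n : ℕ, Real.exp (-(D * t)) * (D * t) ^ n / (n.factorial : ℝ) * A n) / t)
      atTop (𝓝 (D * v)) := by
  rw [Metric.tendsto_atTop]
  intro η hη
  have hε : 0 < η / (2 * D) := by positivity
  obtain ⟨C, hC0, hC⟩ := Poisson_lin h0 h1 h hε
  refine ⟨2 * C / η + 1, fun t ht => ?_⟩
  have ht0 : 0 < t := by
    have : 0 ≤ 2 * C / η := by positivity
    linarith
  set x : ℝ := D * t with hx
  have hx0 : 0 ≤ x := by positivity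
  set P : ℕ → ℝ := fun n => Real.exp (-x) * x ^ n / (n.factorial : ℝ) with hP
  have hPn : ∀ n, 0 ≤ P n := fun n => Poisson_nonneg hx0 n
  have hS1 : HasSum P 1 := Poisson_one x
  have hSm : HasSum (fun n : ℕ => P n * (n : ℝ)) x := Poisson_mean x
  have hAs : Summable (fun n : ℕ => P n * A n) :=
    Summable.of_nonneg_of_le (fun n => mul_nonneg (hPn n) (h0 n))
      (fun n => mul_le_mul_of_nonneg_left (h1 n) (hPn n)) hSm.summable
  have hvs : HasSum (fun n : ℕ => P n * (v * n)) (v * x) := by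
    refine (hSm.mul_left v).congr_fun ?_
    intro n
    ring
  have hdiff : HasSum (fun n : ℕ => P n * A n - P n * (v * n)) ((∑' n, P n * A n) - v * x) :=
    hAs.hasSum.sub hvs
  have hbd : HasSum (fun n : ℕ => η / (2 * D) * (P n * n) + C * P n) (η / (2 * D) * x + C * 1) :=
    (hSm.mul_left _).add (hS1.mul_left _)
  have habs : |(∑' n, P n * A n) - v * x| ≤ η / (2 * D) * x + C * 1 := by
    rw [← hdiff.tsum_eq, ← hbd.tsum_eq, ← Real.norm_eq_abs]
    refine tsum_of_norm_bounded hbd.summable.hasSum ?_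
    intro n
    rw [← mul_sub, Real.norm_eq_abs, abs_mul, abs_of_nonneg (hPn n)]
    calc P n * |A n - v * n| ≤ P n * (η / (2 * D) * n + C) :=
          mul_le_mul_of_nonneg_left (hC n) (hPn n)
      _ = η / (2 * D) * (P n * n) + C * P n := by ring
  rw [Real.dist_eq]
  have h5 : (∑' n, P n * A n) / t - D * v = ((∑' n, P n * A n) - v * x) / t := by
    rw [hx]
    field_simp
  rw [h5, abs_div, abs_of_pos ht0, div_lt_iff₀ ht0]
  refine lt_of_le_of_lt habs ?_
  have h6 : η / (2 * D) * x = η * t / 2 := by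
    rw [hx]
    field_simp
  rw [h6]
  have h7 : 2 * C / η < t := by linarith
  rw [div_lt_iff₀ hη] at h7
  linarith

theorem integral_poisson {Ω : Type} [MeasurableSpace Ω] (μ : Measure Ω) [IsProbabilityMeasure μ]
    {a : ℕ → Ω → ℝ} {D t : ℝ} (hD : 0 < D) (ht : 0 ≤ t) (hm : ∀ n, Measurable (a n))
    (h0 : ∀ n ω, 0 ≤ a n ω) (h1 : ∀ n ω, a n ω ≤ n) :
    ∫ ω, ∑' n : ℕ, Real.exp (-(D * t)) * (D * t) ^ n / (n.factorial : ℝ) * a n ω ∂μ =
      ∑' n : ℕ, Real.exp (-(D * t)) * (D * t) ^ n / (n.factorial : ℝ) * ∫ ω, a n ω ∂μ := by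
  set x : ℝ := D * t with hx
  have hx0 : 0 ≤ x := by positivity
  have hint : ∀ n, Integrable (a n) μ := by
    intro n
    refine Integrable.of_bound (hm n).aestronglyMeasurable (n : ℝ) ?_
    refine Filter.Eventually.of_forall fun ω => ?_
    rw [Real.norm_eq_abs, abs_of_nonneg (h0 n ω)]
    exact h1 n ω
  have hF : ∀ n : ℕ, Integrable (fun ω => Real.exp (-x) * x ^ n / (n.factorial : ℝ) * a n ω) μ :=
    fun n => (hint n).const_mul _
  have hle : ∀ n : ℕ, ∫ ω, a n ω ∂μ ≤ n := by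
    intro n
    calc ∫ ω, a n ω ∂μ ≤ ∫ _, (n : ℝ) ∂μ :=
          integral_mono (hint n) (integrable_const _) (fun ω => h1 n ω)
      _ = n := by simp
  have hsum : Summable fun n : ℕ =>
      ∫ ω, ‖Real.exp (-x) * x ^ n / (n.factorial : ℝ) * a n ω‖ ∂μ := by
    refine Summable.of_nonneg_of_le (fun n => integral_nonneg fun ω => norm_nonneg _) (fun n => ?_)
      (Poisson_mean x).summable
    have h2 : ∀ ω, ‖Real.exp (-x) * x ^ n / (n.factorial : ℝ) * a n ω‖ =
        Real.exp (-x) * x ^ n / (n.factorial : ℝ) * a n ω := by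
      intro ω
      rw [Real.norm_eq_abs, abs_of_nonneg (mul_nonneg (Poisson_nonneg hx0 n) (h0 n ω))]
    simp_rw [h2]
    rw [integral_const_mul]
    exact mul_le_mul_of_nonneg_left (hle n) (Poisson_nonneg hx0 n)
  have h3 := (hasSum_integral_of_summable_integral_norm hF hsum).tsum_eq
  rw [← h3]
  refine tsum_congr fun n => ?_
  rw [integral_const_mul]

end Pool.Agent.MR
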