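import Pool.Agent.Lib.MP_34a06d_pr.Meas

set_option autoImplicit false

namespace Pool.Agent.MR

open Equiv MeasureTheory

variable {m : ℕ}

theorem Shift_lm_head (i k : Lab m) (q : List (Lab m)) :
    (k = i ∧ q = [] ∧ lm i (k :: q) = []) ∨ ∃ q', lm i (k :: q) = k :: q' := by
  cases q with
  | nil =>
    by_cases h : k = i
    · exact Or.inl ⟨h, rfl, by simp [lm, h]⟩
    · exact Or.inr ⟨[i], by simp [lm, h]⟩
  | cons j q => exact Or.inr ⟨lm i (j :: q), rfl⟩

theorem Rdc_lm (i : Lab m) {y : List (Lab m)} (hy : Rdc y) : Rdc (lm i y) := by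
  induction y with
  | nil => trivial
  | cons j y ih =>
    cases y with
    | nil =>
      by_cases h : j = i
      · simp [lm, h, Rdc]
      · simp [lm, h, Rdc]
    | cons k q =>
      obtain ⟨h1, h2⟩ := hy
      have h3 := ih h2
      show Rdc (j :: lm i (k :: q))
      rcases Shift_lm_head i k q with ⟨_, _, h4⟩ | ⟨q', h4⟩
      · rw [h4]; trivial
      · rw [h4] at h3 ⊢
        exact ⟨h1, h3⟩

theorem lm_lm (i : Lab m) {y : List (Lab m)} (hy : Rdc y) : lm i (lm i y) = y := by
  induction y with
  | nil => simp [lm]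
  | cons j y ih =>
    cases y with
    | nil =>
      by_cases h : j = i
      · simp [lm, h]
      · simp [lm, h]
    | cons k q =>
      obtain ⟨h1, h2⟩ := hy
      have h3 := ih h2
      show lm i (j :: lm i (k :: q)) = _
      rcases Shift_lm_head i k q with ⟨h5, h6, h4⟩ | ⟨q', h4⟩
      · rw [h4]
        subst h5 h6
        simp [lm, h1]
      · rw [h4] at h3 ⊢
        show j :: lm i (k :: q') = _
        rw [h3]

theorem Shift_lm_cons (i j : Lab m) (q : List (Lab m)) (h : j :: q ≠ [i]) :
    lm i (j :: q) = j :: lm i q := by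
  cases q with
  | nil =>
    have : j ≠ i := fun h' => h (by rw [h'])
    simp [lm, this]
  | cons k q => rfl

theorem Shift_Rdc_tail {j : Lab m} {q : List (Lab m)} (h : Rdc (j :: q)) : Rdc q := by
  cases q with
  | nil => trivial
  | cons k q => exact h.2

theorem ls_T (i : Lab m) (ω : Om m) {y : List (Lab m)} (hy : Rdc y) :
    ls (T i ω) y = ls ω (lm i y) := by
  induction y with
  | nil => simp [ls, lm, T]
  | cons j q ih =>
    have ih' := ih (Shift_Rdc_tail hy)
    by_cases h : j :: q = [i]
    · obtain ⟨h1, h2⟩ := List.cons_eq_cons.mp h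
      subst h1 h2
      have h3 : lm j [j] = [] := by simp [lm]
      rw [h3]
      ext1
      · simp [ls, T]
      · simp only [ls, T, reduceIte, List.cons_ne_nil]
        rw [Perm.mul_apply, swap_apply_right, ← mul_assoc, swap_mul_self, one_mul]
    · have h1 : T i ω (j :: q) = ω (lm i (j :: q)) := by
        unfold T
        rw [if_neg (by simp), if_neg h, if_pos hy]
      rw [Shift_lm_cons i j q h] at h1 ⊢
      simp only [ls]
      rw [h1, ih']

theorem Shift_lm_ne_nil (i : Lab m) {y : List (Lab m)} (hy : Rdc y) (h : y ≠ [i]) :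
    lm i y ≠ [] := by
  intro h1
  apply h
  rw [← lm_lm i hy, h1]
  rfl

theorem Shift_lm_ne_single (i : Lab m) {y : List (Lab m)} (hy : Rdc y) (h : y ≠ []) :
    lm i y ≠ [i] := by
  intro h1
  apply h
  rw [← lm_lm i hy, h1]
  simp [lm]

theorem Shift_T_gen (i : Lab m) (ω : Om m) {y : List (Lab m)} (h1 : y ≠ []) (h2 : y ≠ [i])
    (h3 : Rdc y) : T i ω y = ω (lm i y) := by
  unfold T
  rw [if_neg h1, if_neg h2, if_pos h3]

theorem T_T (i : Lab m) (ω : Om m) : T i (T i ω) = ω := by
  funext y
  by_cases h1 : y = []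
  · subst h1
    ext1
    · simp [T]
    · simp only [T, reduceIte, List.cons_ne_nil]
      rw [Perm.mul_apply, swap_apply_right, ← mul_assoc, swap_mul_self, one_mul]
  by_cases h2 : y = [i]
  · subst h2
    ext1
    · simp [T]
    · simp only [T, reduceIte, List.cons_ne_nil]
      rw [Perm.mul_apply, swap_apply_right, Perm.mul_apply, swap_apply_left, ← mul_assoc,
        swap_mul_self, one_mul]
  by_cases h3 : Rdc y
  · rw [Shift_T_gen i _ h1 h2 h3, Shift_T_gen i _ (Shift_lm_ne_nil i h3 h2)
      (Shift_lm_ne_single i h3 h1) (Rdc_lm i h3), lm_lm i h3]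
  · unfold T
    rw [if_neg h1, if_neg h2, if_neg h3, if_neg h1, if_neg h2, if_neg h3]

theorem mp_T [NeZero m] (i : Lab m) : MeasurePreserving (T i) (mu m) (mu m) := by
  classical
  apply mp_of_finitary
  intro I₀
  set I : Finset (List (Lab m)) := I₀ ∪ (I₀.filter Rdc).image (lm i) ∪ {[], [i]} with hI
  have key : ∀ ω ω' : Om m, (∀ y ∈ I, ω y = ω' y) → (∀ y ∈ I, T i ω y = T i ω' y) := by
    intro ω ω' h y hy
    have h0 : ω [] = ω' [] := h [] (by simp [hI])
    have h1 : ω [i] = ω' [i] := h [i] (by simp [hI])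
    unfold T
    rw [h0, h1]
    by_cases hy1 : y = []
    · rw [if_pos hy1, if_pos hy1]
    by_cases hy2 : y = [i]
    · rw [if_neg hy1, if_pos hy2, if_neg hy1, if_pos hy2]
    rw [if_neg hy1, if_neg hy2, if_neg hy1, if_neg hy2]
    by_cases hy3 : Rdc y
    · rw [if_pos hy3, if_pos hy3]
      apply h
      rw [hI, Finset.mem_union, Finset.mem_union] at hy ⊢
      rcases hy with (hy | hy) | hy
      · left; right
        exact Finset.mem_image_of_mem _ (Finset.mem_filter.mpr ⟨hy, hy3⟩)
      · obtain ⟨z, hz, rfl⟩ := Finset.mem_image.mp hy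
        obtain ⟨hz1, hz2⟩ := Finset.mem_filter.mp hz
        left; left
        rw [lm_lm i hz2]
        exact hz1
      · simp only [Finset.mem_insert, Finset.mem_singleton] at hy
        rcases hy with hy | hy
        · exact absurd hy hy1
        · exact absurd hy hy2
    · rw [if_neg hy3, if_neg hy3]
      exact h y hy
  refine ⟨I, ?_, fun ω ω' => ⟨key ω ω', fun h => ?_⟩⟩
  · intro y hy
    rw [hI, Finset.mem_union, Finset.mem_union]
    exact Or.inl (Or.inl hy)
  · have h1 := key (T i ω) (T i ω') h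
    rwa [T_T, T_T] at h1

end Pool.Agent.MR
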