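import Pool.Agent.Lib.MP_34a06d_pr.Defs

set_option autoImplicit false
set_option linter.unusedSectionVars false
set_option linter.unusedVariables false

namespace Pool.Agent.MR

open MeasureTheory Filter Topology

variable {W B : Type} [Group W] [Fintype B]

private theorem Walk_K_eq [Nonempty B] (g : B → W) (r : W → B → ℝ) (f : W → ℝ) (w : W) :
    K g r f w = (1 / (Fintype.card B : ℝ)) * ∑ i, ((1 - r w i) * f w + r w i * f (w * g i)) := by
  have hB : (Fintype.card B : ℝ) ≠ 0 := by
    have : Fintype.card B ≠ 0 := Fintype.card_ne_zero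
    exact_mod_cast this
  have h1 : ∑ i, ((1 - r w i) * f w + r w i * f (w * g i))
      = (Fintype.card B : ℝ) * f w + ∑ i, r w i * (f (w * g i) - f w) := by
    have : (Fintype.card B : ℝ) * f w = ∑ _i : B, f w := by
      simp
    rw [this, ← Finset.sum_add_distrib]
    refine Finset.sum_congr rfl fun i _ => ?_
    ring
  rw [h1, K]
  field_simp

theorem K_mono [Nonempty B] (g : B → W) {r : W → B → ℝ} (hr : ∀ w i, 0 ≤ r w i ∧ r w i ≤ 1)
    {f f' : W → ℝ} (h : ∀ w, f w ≤ f' w) (w : W) : K g r f w ≤ K g r f' w := by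
  rw [Walk_K_eq, Walk_K_eq]
  refine mul_le_mul_of_nonneg_left (Finset.sum_le_sum fun i _ => ?_) (by positivity)
  have h0 := (hr w i).1
  have h1 : 0 ≤ 1 - r w i := by linarith [(hr w i).2]
  exact add_le_add (mul_le_mul_of_nonneg_left (h w) h1)
    (mul_le_mul_of_nonneg_left (h _) h0)

private theorem Walk_iter_mono [Nonempty B] (g : B → W) {r : W → B → ℝ}
    (hr : ∀ w i, 0 ≤ r w i ∧ r w i ≤ 1) (n : ℕ) :
    ∀ {f f' : W → ℝ}, (∀ w, f w ≤ f' w) → ∀ w, (K g r)^[n] f w ≤ (K g r)^[n] f' w := by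
  induction n with
  | zero => intro f f' h w; exact h w
  | succ n ih =>
    intro f f' h w
    rw [Function.iterate_succ_apply, Function.iterate_succ_apply]
    exact ih (K_mono g hr h) w

/-- `K` is linear and fixes constants -/
private theorem Walk_K_affine (g : B → W) (r : W → B → ℝ) (f : W → ℝ) (a C : ℝ) (w : W) :
    K g r (fun x => a * f x + C) w = a * K g r f w + C := by
  simp only [K]
  have : ∑ i, r w i * (a * f (w * g i) + C - (a * f w + C))
      = a * ∑ i, r w i * (f (w * g i) - f w) := by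
    rw [Finset.mul_sum]
    refine Finset.sum_congr rfl fun i _ => ?_
    ring
  rw [this]
  ring

/-- `K` is additive -/
private theorem Walk_K_add (g : B → W) (r : W → B → ℝ) (f f' : W → ℝ) :
    K g r (fun x => f x + f' x) = fun w => K g r f w + K g r f' w := by
  funext w
  simp only [K]
  have : ∑ i, r w i * (f (w * g i) + f' (w * g i) - (f w + f' w))
      = ∑ i, r w i * (f (w * g i) - f w) + ∑ i, r w i * (f' (w * g i) - f' w) := by
    rw [← Finset.sum_add_distrib]
    refine Finset.sum_congr rfl fun i _ => ?_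
    ring
  rw [this]
  ring

private theorem Walk_iter_add (g : B → W) (r : W → B → ℝ) (n : ℕ) :
    ∀ (f f' : W → ℝ), (K g r)^[n] (fun x => f x + f' x)
      = fun w => (K g r)^[n] f w + (K g r)^[n] f' w := by
  induction n with
  | zero => intro f f'; rfl
  | succ n ih =>
    intro f f'
    rw [Function.iterate_succ_apply, Walk_K_add, ih]
    rfl

private theorem Walk_iter_const_add (g : B → W) (r : W → B → ℝ) (n : ℕ) :
    ∀ (f : W → ℝ) (c : ℝ), (K g r)^[n] (fun x => c + f x) = fun w => c + (K g r)^[n] f w := by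
  induction n with
  | zero => intro f c; rfl
  | succ n ih =>
    intro f c
    have : K g r (fun x => c + f x) = fun w => c + K g r f w := by
      funext w
      have := Walk_K_affine g r f 1 c w
      simp only [one_mul] at this
      simp only [add_comm c]
      exact this
    rw [Function.iterate_succ_apply, this, ih]
    rfl

/-- lower bound for the iterates from a drift condition -/
theorem iter_ge [Nonempty B] (g : B → W) {r : W → B → ℝ} (hr : ∀ w i, 0 ≤ r w i ∧ r w i ≤ 1)
    {f h : W → ℝ} {c a C : ℝ} (ha : 0 < a) (hd : ∀ w, c ≤ ∑ i, r w i * (h (w * g i) - h w))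
    (hf : ∀ w, h w ≤ a * f w + C) (n : ℕ) :
    h 1 + n * (c / Fintype.card B) ≤ a * (K g r)^[n] f 1 + C := by
  suffices H : ∀ w, 1 * h w + n * (c / Fintype.card B) ≤ a * (K g r)^[n] f w + C by
    have := H 1
    rwa [one_mul] at this
  induction n with
  | zero => intro w; simpa using hf w
  | succ n ih =>
    intro w
    rw [Function.iterate_succ_apply', ← Walk_K_affine]
    refine le_trans ?_ (K_mono g hr ih w)
    rw [Walk_K_affine]
    have h2 : c / Fintype.card B ≤ K g r h w - h w := by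
      simp only [K]
      have h3 := mul_le_mul_of_nonneg_left (hd w)
        (show (0 : ℝ) ≤ 1 / (Fintype.card B : ℝ) by positivity)
      have h4 : c / (Fintype.card B : ℝ) = 1 / (Fintype.card B : ℝ) * c := by ring
      linarith
    push_cast
    linarith

/-- upper bound for the iterates from a drift condition -/
theorem iter_le [Nonempty B] (g : B → W) {r : W → B → ℝ} (hr : ∀ w i, 0 ≤ r w i ∧ r w i ≤ 1)
    {f h : W → ℝ} {c C : ℝ} (hd : ∀ w, ∑ i, r w i * (h (w * g i) - h w) ≤ c)
    (hf : ∀ w, f w ≤ h w + C) (n : ℕ) :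
    (K g r)^[n] f 1 ≤ h 1 + C + n * (c / Fintype.card B) := by
  suffices H : ∀ w, (K g r)^[n] f w ≤ 1 * h w + (C + n * (c / Fintype.card B)) by
    have := H 1
    rw [one_mul] at this
    linarith
  induction n with
  | zero => intro w; simpa using hf w
  | succ n ih =>
    intro w
    rw [Function.iterate_succ_apply']
    refine le_trans (K_mono g hr ih w) ?_
    rw [Walk_K_affine]
    have h2 : K g r h w - h w ≤ c / Fintype.card B := by
      simp only [K]
      have h3 := mul_le_mul_of_nonneg_left (hd w)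
        (show (0 : ℝ) ≤ 1 / (Fintype.card B : ℝ) by positivity)
      have h4 : c / (Fintype.card B : ℝ) = 1 / (Fintype.card B : ℝ) * c := by ring
      linarith
    push_cast
    linarith

theorem iter_nonneg_le [Nonempty B] (g : B → W) {r : W → B → ℝ}
    (hr : ∀ w i, 0 ≤ r w i ∧ r w i ≤ 1) (len : W → ℝ) (h1 : len 1 = 0) (h0 : ∀ w, 0 ≤ len w)
    (hg : ∀ w i, len (w * g i) ≤ len w + 1) (n : ℕ) :
    0 ≤ (K g r)^[n] len 1 ∧ (K g r)^[n] len 1 ≤ n := by
  have hB : (Fintype.card B : ℝ) ≠ 0 := by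
    have : Fintype.card B ≠ 0 := Fintype.card_ne_zero
    exact_mod_cast this
  constructor
  · have := iter_ge g hr (f := len) (h := fun _ => 0) (c := 0) (a := 1) (C := 0) one_pos
      (by intro w; simp) (by intro w; simpa using h0 w) n
    simpa using this
  · have := iter_le g hr (f := len) (h := len) (c := Fintype.card B) (C := 0)
      (by
        intro w
        calc ∑ i, r w i * (len (w * g i) - len w) ≤ ∑ _i : B, (1 : ℝ) := by
              refine Finset.sum_le_sum fun i _ => ?_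
              have h2 := (hr w i).1
              have h3 := (hr w i).2
              have h4 := hg w i
              nlinarith
          _ = Fintype.card B := by simp)
      (by intro w; simp) n
    rw [h1, div_self hB] at this
    linarith

theorem measurable_iter (g : B → W) (f : W → ℝ) (n : ℕ) (w : W) :
    Measurable fun r : W → B → ℝ => (K g r)^[n] f w := by
  induction n generalizing w with
  | zero => exact measurable_const
  | succ n ih =>
    simp only [Function.iterate_succ_apply', K]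
    refine (ih w).add (measurable_const.mul ?_)
    refine Finset.measurable_sum _ fun i _ => ?_
    have h2 : Measurable fun r : W → B → ℝ => (K g r)^[n] f (w * g i) - (K g r)^[n] f w :=
      (ih _).sub (ih _)
    have h3 : Measurable fun r : W → B → ℝ => r w i :=
      (measurable_pi_apply i).comp (measurable_pi_apply w)
    exact h3.mul h2

/-- shift of a field -/
private def Walk_sh (x : W) (ρ : W → B → ℝ) : W → B → ℝ := fun w => ρ (x * w)

private theorem Walk_measurable_sh (x : W) : Measurable (Walk_sh (B := B) x) :=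
  measurable_pi_lambda _ fun w => measurable_pi_apply (x * w)

private theorem Walk_measurable_ev (x : W) (i : B) :
    Measurable fun ρ : W → B → ℝ => ρ x i :=
  (measurable_pi_apply i).comp (measurable_pi_apply x)

private theorem Walk_sh_one (ρ : W → B → ℝ) : Walk_sh 1 ρ = ρ := by
  funext w
  simp [Walk_sh]

private theorem Walk_sh_sh (x y : W) (ρ : W → B → ℝ) :
    Walk_sh y (Walk_sh x ρ) = Walk_sh (x * y) ρ := by
  funext w
  simp [Walk_sh, mul_assoc]

/-- `K` commutes with the left translations -/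
private theorem Walk_iter_sh (g : B → W) (ρ : W → B → ℝ) (x : W) (n : ℕ) :
    ∀ (f : W → ℝ) (w : W), (K g ρ)^[n] f (x * w)
      = (K g (Walk_sh x ρ))^[n] (fun v => f (x * v)) w := by
  induction n with
  | zero => intro f w; rfl
  | succ n ih =>
    intro f w
    have h : (fun v => K g ρ f (x * v)) = K g (Walk_sh x ρ) (fun v => f (x * v)) := by
      funext v
      simp [K, Walk_sh, mul_assoc]
    rw [Function.iterate_succ_apply, Function.iterate_succ_apply, ih, h]

/-- the operator on the functionals of the field -/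
private noncomputable def Walk_op (g : B → W) (F : (W → B → ℝ) → ℝ) (ρ : W → B → ℝ) : ℝ :=
  F ρ + (1 / (Fintype.card B : ℝ)) * ∑ i, ρ 1 i * (F (Walk_sh (g i) ρ) - F ρ)

private theorem Walk_iter_op (g : B → W) (ρ : W → B → ℝ) (n : ℕ) :
    ∀ F : (W → B → ℝ) → ℝ, (K g ρ)^[n] (fun x => F (Walk_sh x ρ))
      = fun x => (Walk_op g)^[n] F (Walk_sh x ρ) := by
  induction n with
  | zero => intro F; rfl
  | succ n ih =>
    intro F
    have h : K g ρ (fun x => F (Walk_sh x ρ)) = fun x => Walk_op g F (Walk_sh x ρ) := by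
      funext x
      simp only [K, Walk_op, Walk_sh_sh]
      simp [Walk_sh]
    rw [Function.iterate_succ_apply, h, ih]
    rfl

/-- bounded measurable functionals -/
private def Walk_Bdd (F : (W → B → ℝ) → ℝ) : Prop :=
  Measurable F ∧ ∃ C : ℝ, ∀ ρ : W → B → ℝ, (∀ w i, 0 ≤ ρ w i ∧ ρ w i ≤ 1) → |F ρ| ≤ C

private theorem Walk_Bdd_op (g : B → W) {F : (W → B → ℝ) → ℝ} (hF : Walk_Bdd F) :
    Walk_Bdd (Walk_op g F) := by
  obtain ⟨hm, C, hC⟩ := hF
  refine ⟨?_, C + (1 / (Fintype.card B : ℝ)) * ∑ _i : B, (2 * C), ?_⟩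
  · unfold Walk_op
    refine hm.add (measurable_const.mul ?_)
    refine Finset.measurable_sum _ fun i _ => ?_
    have h2 : Measurable fun ρ : W → B → ℝ => F (Walk_sh (g i) ρ) - F ρ :=
      (hm.comp (Walk_measurable_sh (g i))).sub hm
    have h3 : Measurable fun ρ : W → B → ℝ => ρ 1 i := Walk_measurable_ev 1 i
    exact h3.mul h2
  · intro ρ hρ
    have hC0 : 0 ≤ C := (abs_nonneg _).trans (hC ρ hρ)
    unfold Walk_op
    refine (abs_add_le _ _).trans (add_le_add (hC ρ hρ) ?_)
    rw [abs_mul, abs_of_nonneg (show (0 : ℝ) ≤ 1 / (Fintype.card B : ℝ) by positivity)]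
    refine mul_le_mul_of_nonneg_left ?_ (by positivity)
    refine (Finset.abs_sum_le_sum_abs _ _).trans (Finset.sum_le_sum fun i _ => ?_)
    rw [abs_mul, abs_of_nonneg (hρ 1 i).1]
    have h2 : |F (Walk_sh (g i) ρ) - F ρ| ≤ 2 * C := by
      have h3 := hC (Walk_sh (g i) ρ) (fun w j => hρ (g i * w) j)
      have h4 := hC ρ hρ
      have := abs_sub (F (Walk_sh (g i) ρ)) (F ρ)
      linarith
    calc ρ 1 i * |F (Walk_sh (g i) ρ) - F ρ| ≤ 1 * (2 * C) :=
          mul_le_mul (hρ 1 i).2 h2 (abs_nonneg _) zero_le_one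
      _ = 2 * C := one_mul _

private theorem Walk_Bdd_integrable {Ω : Type} [MeasurableSpace Ω] (μ : Measure Ω)
    [IsProbabilityMeasure μ] (r : Ω → W → B → ℝ) (hm : Measurable r)
    (hr : ∀ ω w i, 0 ≤ r ω w i ∧ r ω w i ≤ 1) {F : (W → B → ℝ) → ℝ} (hF : Walk_Bdd F) :
    Integrable (fun ω => F (r ω)) μ := by
  obtain ⟨hFm, C, hC⟩ := hF
  refine Integrable.of_bound (hFm.comp hm).aestronglyMeasurable C ?_
  exact Filter.Eventually.of_forall fun ω => hC (r ω) (hr ω)

private theorem Walk_integral_op [Nonempty B] (g : B → W)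
    {Ω : Type} [MeasurableSpace Ω] (μ : Measure Ω) [IsProbabilityMeasure μ]
    (r : Ω → W → B → ℝ) (hm : Measurable r) (hr : ∀ ω w i, 0 ≤ r ω w i ∧ r ω w i ≤ 1)
    (hs : ∀ ω w i, r ω (w * g i) i = r ω w i)
    (hinv : ∀ i, μ.map (fun ω w j => r ω (g i * w) j) = μ.map r)
    {F : (W → B → ℝ) → ℝ} (hF : Walk_Bdd F) :
    ∫ ω, Walk_op g F (r ω) ∂μ = ∫ ω, F (r ω) ∂μ := by
  obtain ⟨hFm, C, hC⟩ := hF
  have key : ∀ i, ∫ ω, r ω 1 i * F (Walk_sh (g i) (r ω)) ∂μ = ∫ ω, r ω 1 i * F (r ω) ∂μ := by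
    intro i
    have hev : Measurable fun ρ : W → B → ℝ => ρ 1 i := Walk_measurable_ev 1 i
    have hG : Measurable fun ρ : W → B → ℝ => ρ 1 i * F ρ := hev.mul hFm
    have e1 : ∫ ρ, ρ 1 i * F ρ ∂(μ.map r) = ∫ ω, r ω 1 i * F (r ω) ∂μ :=
      integral_map hm.aemeasurable hG.aestronglyMeasurable
    have hm2 : Measurable (fun ω w j => r ω (g i * w) j) := (Walk_measurable_sh (g i)).comp hm
    have e2 : ∫ ρ, ρ 1 i * F ρ ∂(μ.map (fun ω w j => r ω (g i * w) j))
        = ∫ ω, r ω (g i * 1) i * F (Walk_sh (g i) (r ω)) ∂μ :=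
      integral_map hm2.aemeasurable hG.aestronglyMeasurable
    rw [hinv i, e1] at e2
    rw [e2]
    refine integral_congr_ae (Filter.Eventually.of_forall fun ω => ?_)
    have := hs ω 1 i
    rw [one_mul] at this
    simp [this]
  have hb1 : ∀ i, Walk_Bdd fun ρ : W → B → ℝ => ρ 1 i * F (Walk_sh (g i) ρ) := by
    intro i
    have hev : Measurable fun ρ : W → B → ℝ => ρ 1 i := Walk_measurable_ev 1 i
    have hG : Measurable fun ρ : W → B → ℝ => ρ 1 i * F (Walk_sh (g i) ρ) :=
      hev.mul (hFm.comp (Walk_measurable_sh (g i)))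
    refine ⟨hG, C, fun ρ hρ => ?_⟩
    rw [abs_mul, abs_of_nonneg (hρ 1 i).1]
    have h3 := hC (Walk_sh (g i) ρ) (fun w j => hρ (g i * w) j)
    calc ρ 1 i * |F (Walk_sh (g i) ρ)| ≤ 1 * C :=
          mul_le_mul (hρ 1 i).2 h3 (abs_nonneg _) zero_le_one
      _ = C := one_mul _
  have hb2 : ∀ i, Walk_Bdd fun ρ : W → B → ℝ => ρ 1 i * F ρ := by
    intro i
    have hev : Measurable fun ρ : W → B → ℝ => ρ 1 i := Walk_measurable_ev 1 i
    have hG : Measurable fun ρ : W → B → ℝ => ρ 1 i * F ρ := hev.mul hFm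
    refine ⟨hG, C, fun ρ hρ => ?_⟩
    rw [abs_mul, abs_of_nonneg (hρ 1 i).1]
    calc ρ 1 i * |F ρ| ≤ 1 * C :=
          mul_le_mul (hρ 1 i).2 (hC ρ hρ) (abs_nonneg _) zero_le_one
      _ = C := one_mul _
  have i0 := Walk_Bdd_integrable μ r hm hr (F := F) ⟨hFm, C, hC⟩
  have i1 := fun i => Walk_Bdd_integrable μ r hm hr (hb1 i)
  have i2 := fun i => Walk_Bdd_integrable μ r hm hr (hb2 i)
  have e : ∀ ω, Walk_op g F (r ω) = F (r ω) + (1 / (Fintype.card B : ℝ)) *
      ∑ i, (r ω 1 i * F (Walk_sh (g i) (r ω)) - r ω 1 i * F (r ω)) := by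
    intro ω
    unfold Walk_op
    congr 2
    refine Finset.sum_congr rfl fun i _ => ?_
    ring
  simp only [e]
  have i3 : Integrable (fun ω => ∑ i, (r ω 1 i * F (Walk_sh (g i) (r ω)) - r ω 1 i * F (r ω))) μ :=
    integrable_finsetSum _ fun i _ => (i1 i).sub (i2 i)
  have i4 : ∀ i, Integrable (fun ω => r ω 1 i * F (Walk_sh (g i) (r ω)) - r ω 1 i * F (r ω)) μ :=
    fun i => (i1 i).sub (i2 i)
  rw [integral_add i0 (i3.const_mul _), integral_const_mul, integral_finsetSum _ fun i _ => i4 i]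
  have : ∑ i, ∫ ω, (r ω 1 i * F (Walk_sh (g i) (r ω)) - r ω 1 i * F (r ω)) ∂μ = 0 := by
    refine Finset.sum_eq_zero fun i _ => ?_
    rw [integral_sub (i1 i) (i2 i), key i, sub_self]
  rw [this]
  ring

/-- the speed of the discrete walk exists in an invariant random rate field -/
theorem exists_speed [Nonempty B] (g : B → W) (hg : ∀ i, g i * g i = 1)
    (len : W → ℝ) (h1 : len 1 = 0) (h0 : ∀ w, 0 ≤ len w)
    (hmul : ∀ x y, len (x * y) ≤ len x + len y) (hgen : ∀ i, len (g i) ≤ 1)
    {Ω : Type} [MeasurableSpace Ω] (μ : Measure Ω) [IsProbabilityMeasure μ]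
    (r : Ω → W → B → ℝ) (hm : Measurable r) (hr : ∀ ω w i, 0 ≤ r ω w i ∧ r ω w i ≤ 1)
    (hs : ∀ ω w i, r ω (w * g i) i = r ω w i)
    (hinv : ∀ i, μ.map (fun ω w j => r ω (g i * w) j) = μ.map r) :
    ∃ v : ℝ, Tendsto (fun n : ℕ => (∫ ω, (K g (r ω))^[n] len 1 ∂μ) / n) atTop (𝓝 v) := by
  have hstep : ∀ w i, len (w * g i) ≤ len w + 1 := fun w i =>
    (hmul w (g i)).trans (by linarith [hgen i])
  -- the functionals
  have hbd : ∀ n : ℕ, Walk_Bdd fun ρ : W → B → ℝ => (K g ρ)^[n] len 1 := by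
    intro n
    refine ⟨measurable_iter g len n 1, n, fun ρ hρ => ?_⟩
    have := iter_nonneg_le g hρ len h1 h0 hstep n
    rw [abs_of_nonneg this.1]
    exact this.2
  have hiter : ∀ (m : ℕ) (F : (W → B → ℝ) → ℝ), Walk_Bdd F →
      Walk_Bdd ((Walk_op g)^[m] F) ∧
        ∫ ω, (Walk_op g)^[m] F (r ω) ∂μ = ∫ ω, F (r ω) ∂μ := by
    intro m
    induction m with
    | zero => intro F hF; exact ⟨hF, rfl⟩
    | succ m ih =>
      intro F hF
      rw [Function.iterate_succ_apply]
      obtain ⟨h2, h3⟩ := ih _ (Walk_Bdd_op g hF)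
      exact ⟨h2, h3.trans (Walk_integral_op g μ r hm hr hs hinv hF)⟩
  -- the pointwise inequality
  have hpt : ∀ (m n : ℕ) (ρ : W → B → ℝ), (∀ w i, 0 ≤ ρ w i ∧ ρ w i ≤ 1) →
      (K g ρ)^[m + n] len 1 ≤ (K g ρ)^[m] len 1 +
        (Walk_op g)^[m] (fun ρ : W → B → ℝ => (K g ρ)^[n] len 1) ρ := by
    intro m n ρ hρ
    rw [Function.iterate_add_apply]
    have h2 : ∀ x, (K g ρ)^[n] len x ≤ len x + (K g (Walk_sh x ρ))^[n] len 1 := by
      intro x
      have h3 := Walk_iter_sh g ρ x n len 1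
      rw [mul_one] at h3
      rw [h3]
      have h4 := Walk_iter_mono g (r := Walk_sh x ρ) (fun w i => hρ (x * w) i) n
        (f := fun v => len (x * v)) (f' := fun v => len x + len v) (fun v => hmul x v) 1
      rwa [Walk_iter_const_add] at h4
    have h5 := Walk_iter_mono g hρ m h2 1
    rw [Walk_iter_add] at h5
    have h6 := Walk_iter_op g ρ m (fun ρ : W → B → ℝ => (K g ρ)^[n] len 1)
    have h7 := congrFun h6 1
    simp only [Walk_sh_one] at h7
    simp only [h7] at h5
    exact h5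
  have hsub : Subadditive fun n : ℕ => ∫ ω, (K g (r ω))^[n] len 1 ∂μ := by
    intro m n
    have e := hiter m _ (hbd n)
    have i1 := Walk_Bdd_integrable μ r hm hr (hbd (m + n))
    have i2 := Walk_Bdd_integrable μ r hm hr (hbd m)
    have i3 := Walk_Bdd_integrable μ r hm hr e.1
    calc ∫ ω, (K g (r ω))^[m + n] len 1 ∂μ
        ≤ ∫ ω, ((K g (r ω))^[m] len 1 +
          (Walk_op g)^[m] (fun ρ : W → B → ℝ => (K g ρ)^[n] len 1) (r ω)) ∂μ :=
          integral_mono i1 (i2.add i3) fun ω => hpt m n (r ω) (hr ω)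
      _ = _ := by rw [integral_add i2 i3, e.2]
  refine ⟨hsub.lim, hsub.tendsto_lim ⟨0, ?_⟩⟩
  rintro _ ⟨n, rfl⟩
  refine div_nonneg (integral_nonneg fun ω => ?_) (Nat.cast_nonneg n)
  exact (iter_nonneg_le g (hr ω) len h1 h0 hstep n).1

end Pool.Agent.MR
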