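import Pool.Agent.Lib.MP_34a06d_pr.Coupling
import Pool.Agent.Lib.MP_34a06d_pr.PhiMP
import Pool.Agent.Lib.MP_34a06d_pr.Shift
import Pool.Agent.Lib.MP_34a06d_pr.Length
import Pool.Agent.Lib.MP_34a06d_pr.Walk
import Pool.Agent.Lib.MP_34a06d_pr.Poisson
import Pool.Agent.Lib.MP_34a06d_pr.Drift

set_option autoImplicit false

namespace Pool.Agent.MR

open Equiv MeasureTheory Filter Topology

variable {N m : ℕ}

/-! ### the fields -/

/-- the first field on the group -/
noncomputable def R1 (c : List (Lab m) → X m) (w : GG N m) (b : Gn N m) : ℝ := fld1 c (ys w) b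

/-- the second field on the group -/
noncomputable def R2 (c : List (Lab m) → X m) (w : GG N m) (b : Gn N m) : ℝ := fld2 c (ys w) b

lemma R1_mem (c : List (Lab m) → X m) (w : GG N m) (b : Gn N m) : 0 ≤ R1 c w b ∧ R1 c w b ≤ 1 := by
  unfold R1 fld1
  rcases b with ⟨j, t, u⟩ | i
  · dsimp only; split_ifs <;> norm_num
  · dsimp only; split_ifs <;> norm_num

lemma R2_mem (c : List (Lab m) → X m) (w : GG N m) (b : Gn N m) : 0 ≤ R2 c w b ∧ R2 c w b ≤ 1 := by
  unfold R2 fld2
  rcases b with ⟨j, t, u⟩ | i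
  · dsimp only; split_ifs <;> norm_num
  · dsimp only; split_ifs <;> norm_num

lemma Main_nb {c : List (Lab m) → X m} (hc : Bal c) (i : Lab m) {y : List (Lab m)} (hy : Rdc y) :
    (c (nb i y)).l = (c y).p i ∧ (c (nb i y)).p i = (c y).l := by
  refine ⟨hc y i, ?_⟩
  rw [← hc (nb i y) i, nb_nb i hy]

lemma R1_symm {c : List (Lab m) → X m} (hc : Bal c) (w : GG N m) (b : Gn N m) :
    R1 c (w * sm b) b = R1 c w b := by
  rcases b with ⟨j, t, u⟩ | i
  · unfold R1
    rw [ys_mul_inl]
  · unfold R1
    rw [ys_mul_inr]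
    obtain ⟨h1, h2⟩ := Main_nb hc i (Rdc_ys w)
    show (if (c (nb i (ys w))).p i = flip (c (nb i (ys w))).l then (1 : ℝ) else 0) =
      (if (c (ys w)).p i = flip (c (ys w)).l then 1 else 0)
    rw [h1, h2]
    congr 1
    apply propext
    constructor
    · intro h; rw [h, flip_flip]
    · intro h; rw [h, flip_flip]

lemma R2_symm {c : List (Lab m) → X m} (hc : Bal c) (w : GG N m) (b : Gn N m) :
    R2 c (w * sm b) b = R2 c w b := by
  rcases b with ⟨j, t, u⟩ | i
  · unfold R2
    rw [ys_mul_inl]
  · unfold R2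
    rw [ys_mul_inr]
    obtain ⟨h1, h2⟩ := Main_nb hc i (Rdc_ys w)
    show (if ((c (nb i (ys w))).p i).1 = (c (nb i (ys w))).l.1 then (1 : ℝ) else 0) =
      (if ((c (ys w)).p i).1 = (c (ys w)).l.1 then 1 else 0)
    rw [h1, h2]
    congr 1
    exact propext ⟨Eq.symm, Eq.symm⟩

/-! ### measurability -/

lemma measurable_ls (y : List (Lab m)) : Measurable fun ω : Om m => ls ω y := by
  induction y with
  | nil => exact measurable_pi_apply _
  | cons j q ih =>
    have h : Measurable fun ω : Om m => (ls ω q, ω (j :: q)) := ih.prodMk (measurable_pi_apply _)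
    exact (measurable_of_countable (fun z : X m × X m =>
      (⟨z.1.p j, swap (z.2.p j) z.1.l * z.2.p⟩ : X m))).comp h

lemma measurable_R1 : Measurable fun (ω : Om m) (w : GG N m) (b : Gn N m) => R1 (ls ω) w b := by
  refine measurable_pi_iff.2 fun w => measurable_pi_iff.2 fun b => ?_
  rcases b with ⟨j, t, u⟩ | i
  · exact (measurable_of_countable (fun x : X m => if x.l.1 = t then (1 : ℝ) else 0)).comp
      (measurable_ls (ys w))
  · exact (measurable_of_countable (fun x : X m => if x.p i = flip x.l then (1 : ℝ) else 0)).comp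
      (measurable_ls (ys w))

lemma measurable_R2 : Measurable fun (ω : Om m) (w : GG N m) (b : Gn N m) => R2 (ls ω) w b := by
  refine measurable_pi_iff.2 fun w => measurable_pi_iff.2 fun b => ?_
  rcases b with ⟨j, t, u⟩ | i
  · exact (measurable_of_countable
      (fun x : X m => if Free x.l ∨ x.l.1 = t then (1 : ℝ) else 0)).comp (measurable_ls (ys w))
  · exact (measurable_of_countable
      (fun x : X m => if (x.p i).1 = x.l.1 then (1 : ℝ) else 0)).comp (measurable_ls (ys w))

/-! ### invariance -/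

/-- a field that depends on the labelling at the tree component only -/
lemma Main_inv_gen [NeZero m] (F : X m → Gn N m → ℝ)
    (hF : Measurable fun (ω : Om m) (w : GG N m) (b : Gn N m) => F (ls ω (ys w)) b) (s : Gn N m) :
    (mu m).map (fun ω w b => F (ls ω (ys (sm s * w))) b) =
      (mu m).map (fun (ω : Om m) (w : GG N m) (b : Gn N m) => F (ls ω (ys w)) b) := by
  rcases s with a | i
  · simp only [ys_inl_mul]
  · have e : (fun (ω : Om m) (w : GG N m) (b : Gn N m) => F (ls ω (ys (sm (.inr i) * w))) b) =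
        (fun (ω : Om m) (w : GG N m) (b : Gn N m) => F (ls ω (ys w)) b) ∘ T i := by
      funext ω w b
      simp only [Function.comp]
      rw [ys_inr_mul, ls_T i ω (Rdc_ys w)]
    rw [e, ← Measure.map_map hF (mp_T i).measurable, (mp_T i).map_eq]

lemma Main_inv_all {Ω : Type} [MeasurableSpace Ω] {μ : Measure Ω} {r : Ω → GG N m → Gn N m → ℝ}
    (hr : Measurable r) (h : ∀ s, μ.map (fun ω w b => r ω (sm s * w) b) = μ.map r) (g : GG N m) :
    μ.map (fun ω w b => r ω (g * w) b) = μ.map r := by
  have hS : ∀ g : GG N m, Measurable fun (f : GG N m → Gn N m → ℝ) w b => f (g * w) b := by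
    intro g
    refine measurable_pi_iff.2 fun w => measurable_pi_iff.2 fun b => ?_
    exact (measurable_pi_apply b).comp (measurable_pi_apply (g * w))
  induction g using (cs N m).simple_induction with
  | simple i => exact h i
  | one => simp
  | mul a b ha hb =>
    have e1 : (fun ω w c => r ω (a * b * w) c) =
        (fun (f : GG N m → Gn N m → ℝ) w c => f (b * w) c) ∘ (fun ω w c => r ω (a * w) c) := by
      funext ω w c
      simp only [Function.comp, mul_assoc]
    have e2 : (fun ω w c => r ω (b * w) c) =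
        (fun (f : GG N m → Gn N m → ℝ) w c => f (b * w) c) ∘ r := rfl
    have hm2 : Measurable (fun ω w c => r ω (a * w) c) := (hS a).comp hr
    rw [e1, ← Measure.map_map (hS b) hm2, ha, Measure.map_map (hS b) hr, ← e2, hb]

theorem inv1 [NeZero m] (g : GG N m) :
    (mu m).map (fun (ω : Om m) (w : GG N m) (b : Gn N m) => R1 (ls ω) (g * w) b) =
      (mu m).map (fun (ω : Om m) (w : GG N m) (b : Gn N m) => R1 (ls ω) w b) := by
  apply Main_inv_all measurable_R1
  intro s
  have := Main_inv_gen (N := N) (m := m)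
    (fun x b => match b with
      | .inl (_, t, _) => if x.l.1 = t then 1 else 0
      | .inr i => if x.p i = flip x.l then 1 else 0) ?_ s
  · convert this using 2
    · funext ω w b
      rcases b with ⟨j, t, u⟩ | i <;> rfl
    · funext ω w b
      rcases b with ⟨j, t, u⟩ | i <;> rfl
  · convert measurable_R1 (N := N) (m := m) using 4 with ω w b
    rcases b with ⟨j, t, u⟩ | i <;> rfl

theorem inv2' [NeZero m] (g : GG N m) :
    (mu m).map (fun (ω : Om m) (w : GG N m) (b : Gn N m) => R2 (ls ω) (g * w) b) =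
      (mu m).map (fun (ω : Om m) (w : GG N m) (b : Gn N m) => R2 (ls ω) w b) := by
  apply Main_inv_all measurable_R2
  intro s
  have := Main_inv_gen (N := N) (m := m)
    (fun x b => match b with
      | .inl (_, t, _) => if Free x.l ∨ x.l.1 = t then 1 else 0
      | .inr i => if (x.p i).1 = x.l.1 then 1 else 0) ?_ s
  · convert this using 2
    · funext ω w b
      rcases b with ⟨j, t, u⟩ | i <;> rfl
    · funext ω w b
      rcases b with ⟨j, t, u⟩ | i <;> rfl
  · convert measurable_R2 (N := N) (m := m) using 4 with ω w b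
    rcases b with ⟨j, t, u⟩ | i <;> rfl

theorem inv2 [NeZero m] (hm : 2 ≤ m) (g : GG N m) :
    (mu m).map (fun (ω : Om m) (w : GG N m) (b : Gn N m) => R2 (ls2 ω) (g * w) b) =
      (mu m).map (fun (ω : Om m) (w : GG N m) (b : Gn N m) => R2 (ls2 ω) w b) := by
  have hS : Measurable fun (f : GG N m → Gn N m → ℝ) w b => f (g * w) b := by
    refine measurable_pi_iff.2 fun w => measurable_pi_iff.2 fun b => ?_
    exact (measurable_pi_apply b).comp (measurable_pi_apply (g * w))
  have hR := measurable_R2 (N := N) (m := m)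
  have e1 : (fun (ω : Om m) (w : GG N m) (b : Gn N m) => R2 (ls2 ω) w b) =
      (fun (ω : Om m) (w : GG N m) (b : Gn N m) => R2 (ls ω) w b) ∘ Phi := by
    funext ω w b
    simp only [Function.comp]
    rw [ls_Phi hm]
  have e2 : (fun (ω : Om m) (w : GG N m) (b : Gn N m) => R2 (ls2 ω) (g * w) b) =
      (fun (ω : Om m) (w : GG N m) (b : Gn N m) => R2 (ls ω) (g * w) b) ∘ Phi := by
    funext ω w b
    simp only [Function.comp]
    rw [ls_Phi hm]
  have h2 : Measurable (fun (ω : Om m) (w : GG N m) (b : Gn N m) => R2 (ls ω) (g * w) b) :=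
    hS.comp hR
  rw [e1, e2, ← Measure.map_map hR mp_Phi.measurable, ← Measure.map_map h2 mp_Phi.measurable,
    mp_Phi.map_eq, inv2']

/-! ### the discrete speeds -/

/-- the Coxeter length -/
noncomputable def len (w : GG N m) : ℝ := (cs N m).length w

lemma len_one : len (1 : GG N m) = 0 := by simp [len]

lemma len_nonneg (w : GG N m) : 0 ≤ len w := Nat.cast_nonneg _

lemma len_mul (x y : GG N m) : len (x * y) ≤ len x + len y := by
  unfold len
  exact_mod_cast (cs N m).length_mul_le x y

lemma len_gen (b : Gn N m) : len (sm b) ≤ 1 := by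
  unfold len
  rw [(cs N m).length_simple]
  norm_num

theorem lower1 [NeZero m] (c : List (Lab m) → X m) (hc : Bal c) (n : ℕ) :
    (n * (7 * N / (26 * Fintype.card (Gn N m))) - N : ℝ) ≤ (K sm (R1 c))^[n] len (1 : GG N m) := by
  have : Nonempty (Gn N m) := ⟨.inr (false, 0)⟩
  have hd := fun w : GG N m => drift1 hc w
  have hf : ∀ w : GG N m, h1 c w ≤ 26 * len w + 16 * N := by
    intro w
    have e1 : h1 c w ≤ ∑ j : Fin N, (26 * ((xs j w).n : ℝ) + 16) := by
      unfold h1
      apply Finset.sum_le_sum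
      intro j _
      have := H_le (c (ys w)).l.1 (xs j w)
      exact_mod_cast this
    have e2 : (∑ j : Fin N, ((xs j w).n : ℝ)) ≤ len w := by
      unfold len
      exact_mod_cast sum_n_le_length w
    rw [Finset.sum_add_distrib, ← Finset.mul_sum] at e1
    simp only [Finset.sum_const, Finset.card_univ, Fintype.card_fin, nsmul_eq_mul] at e1
    linarith
  have h := iter_ge (g := (sm : Gn N m → GG N m)) (r := R1 c) (R1_mem c) (by norm_num) hd hf n
  have h0 : 0 ≤ h1 c (1 : GG N m) := by
    unfold h1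
    apply Finset.sum_nonneg
    intro j _
    rw [xs_one]
    simp [NF.H]
  have hB : (0 : ℝ) < Fintype.card (Gn N m) := by
    have := Fintype.card_pos (α := Gn N m)
    exact_mod_cast this
  have e : (n * (7 * N / (26 * Fintype.card (Gn N m))) : ℝ) * 26 =
      n * (7 * N / Fintype.card (Gn N m)) := by
    field_simp
  nlinarith [Nat.cast_nonneg (α := ℝ) N]

theorem upper2 [NeZero m] (hm : 2 ≤ m) (c : List (Lab m) → X m) (hc : Bal c) (n : ℕ) :
    (K sm (R2 c))^[n] len (1 : GG N m) ≤
      (8 * N / m + 2 * N : ℝ) + n * ((2 * m + 16 * N / m) / Fintype.card (Gn N m)) := by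
  have : Nonempty (Gn N m) := ⟨.inr (false, 0)⟩
  have hd := fun w : GG N m => drift2 hm hc w
  have hm0 : (0 : ℝ) < m := by
    have : 0 < m := by omega
    exact_mod_cast this
  have hf : ∀ w : GG N m, len w ≤ h2 c w + 2 * N := by
    intro w
    have e1 : len w ≤ ∑ j : Fin N, (2 * ((xs j w).n : ℝ)) + (ys w).length := by
      unfold len
      exact_mod_cast length_le w
    have e2 : ∑ j : Fin N, (2 * ((xs j w).n : ℝ)) ≤
        ∑ j : Fin N, (4 * (NF.psi (c (ys w)).l.1 (xs j w) : ℝ) + 2) := by
      apply Finset.sum_le_sum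
      intro j _
      have := n_le_psi (c (ys w)).l.1 (xs j w)
      have : ((xs j w).n : ℝ) ≤ 2 * (NF.psi (c (ys w)).l.1 (xs j w) : ℝ) + 1 := by exact_mod_cast this
      linarith
    rw [Finset.sum_add_distrib, ← Finset.mul_sum Finset.univ
      (fun j : Fin N => (NF.psi (c (ys w)).l.1 (xs j w) : ℝ))] at e2
    simp only [Finset.sum_const, Finset.card_univ, Fintype.card_fin, nsmul_eq_mul] at e2
    have e3 : (0 : ℝ) ≤ (8 * N / m : ℝ) * (if Free (c (ys w)).l then 1 else 0) := by
      split_ifs <;> positivity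
    unfold h2
    linarith
  have h := iter_le (g := (sm : Gn N m → GG N m)) (r := R2 c) (R2_mem c) hd hf n
  have h0 : h2 c (1 : GG N m) ≤ 8 * N / m := by
    unfold h2
    have : ∑ j : Fin N, (NF.psi (c (ys (1 : GG N m))).l.1 (xs j (1 : GG N m)) : ℝ) = 0 := by
      apply Finset.sum_eq_zero
      intro j _
      rw [xs_one]
      simp [NF.psi]
    rw [this, ys_one]
    have e3 : (8 * N / m : ℝ) * (if Free (c []).l then 1 else 0) ≤ 8 * N / m := by
      split_ifs
      · simp
      · rw [mul_zero]; positivity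
    simpa using e3
  linarith

/-! ### limits -/

lemma le_speed {A : ℕ → ℝ} {a v C : ℝ} (h : ∀ n : ℕ, n * a - C ≤ A n)
    (ht : Tendsto (fun n : ℕ => A n / n) atTop (𝓝 v)) : a ≤ v := by
  have hlim : Tendsto (fun n : ℕ => a - C / n) atTop (𝓝 (a - 0)) :=
    tendsto_const_nhds.sub (tendsto_const_div_atTop_nhds_zero_nat C)
  rw [sub_zero] at hlim
  refine le_of_tendsto_of_tendsto hlim ht ?_
  filter_upwards [eventually_gt_atTop 0] with n hn
  have hn' : (0 : ℝ) < n := by exact_mod_cast hn
  rw [le_div_iff₀ hn', sub_mul, div_mul_cancel₀ _ hn'.ne']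
  linarith [h n]

lemma speed_le {A : ℕ → ℝ} {a v C : ℝ} (h : ∀ n : ℕ, A n ≤ C + n * a)
    (ht : Tendsto (fun n : ℕ => A n / n) atTop (𝓝 v)) : v ≤ a := by
  have hlim : Tendsto (fun n : ℕ => a + C / n) atTop (𝓝 (a + 0)) :=
    tendsto_const_nhds.add (tendsto_const_div_atTop_nhds_zero_nat C)
  rw [add_zero] at hlim
  refine le_of_tendsto_of_tendsto ht hlim ?_
  filter_upwards [eventually_gt_atTop 0] with n hn
  have hn' : (0 : ℝ) < n := by exact_mod_cast hn
  rw [div_le_iff₀ hn', add_mul, div_mul_cancel₀ _ hn'.ne']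
  linarith [h n]

end Pool.Agent.MR
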