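import Pool.Agent.Lib.MP_34a06d_pr.Defs

set_option autoImplicit false

namespace Pool.Agent.MR

open MeasureTheory

private theorem Meas_const {S : Type} [Finite S] [Nonempty S] [MeasurableSpace S]
    [DiscreteMeasurableSpace S] (s s' : S) :
    ProbabilityTheory.uniformOn (Set.univ : Set S) {s} =
      ProbabilityTheory.uniformOn (Set.univ : Set S) {s'} := by
  classical
  have := Fintype.ofFinite S
  rw [ProbabilityTheory.uniformOn_univ, ProbabilityTheory.uniformOn_univ,
    Measure.count_singleton, Measure.count_singleton]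

/-- a map which is, on arbitrarily large finite sets of coordinates, a well-defined injective map,
preserves the uniform product measure -/
theorem mp_of_finitary {ι S : Type} [Finite S] [Nonempty S] [MeasurableSpace S]
    [DiscreteMeasurableSpace S] (F : (ι → S) → (ι → S))
    (h : ∀ I₀ : Finset ι, ∃ I : Finset ι, I₀ ⊆ I ∧ ∀ ω ω' : ι → S,
      (∀ i ∈ I, ω i = ω' i) ↔ (∀ i ∈ I, F ω i = F ω' i)) :
    MeasurePreserving F
      (Measure.infinitePi fun _ : ι => ProbabilityTheory.uniformOn (Set.univ : Set S))
      (Measure.infinitePi fun _ : ι => ProbabilityTheory.uniformOn (Set.univ : Set S)) := by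
  classical
  obtain ⟨s₀⟩ := (inferInstance : Nonempty S)
  set μ := Measure.infinitePi fun _ : ι => ProbabilityTheory.uniformOn (Set.univ : Set S) with hμ
  set ext : ∀ I : Finset ι, (I → S) → (ι → S) :=
    fun I b i => if hi : i ∈ I then b ⟨i, hi⟩ else s₀ with hext
  have hextI : ∀ (I : Finset ι) (b : I → S) (i : ι) (hi : i ∈ I), ext I b i = b ⟨i, hi⟩ := by
    intro I b i hi
    simp [hext, hi]
  set FI : ∀ I : Finset ι, (I → S) → (I → S) := fun I b i => F (ext I b) i.1 with hFI
  have hcomp : ∀ I : Finset ι, (∀ ω ω' : ι → S,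
      (∀ i ∈ I, ω i = ω' i) ↔ (∀ i ∈ I, F ω i = F ω' i)) →
      I.restrict ∘ F = FI I ∘ I.restrict := by
    intro I hI
    funext ω
    funext i
    change F ω i.1 = F (ext I (I.restrict ω)) i.1
    refine (hI ω (ext I (I.restrict ω))).mp ?_ i.1 i.2
    intro j hj
    rw [hextI I _ j hj]
    rfl
  have hFm : Measurable F := by
    rw [measurable_pi_iff]
    intro i
    obtain ⟨I, hI₀, hI⟩ := h {i}
    have hi : i ∈ I := hI₀ (Finset.mem_singleton_self i)
    have h1 : (fun ω => F ω i) = (fun b : I → S => b ⟨i, hi⟩) ∘ FI I ∘ I.restrict := by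
      rw [← hcomp I hI]
      rfl
    rw [h1]
    exact (measurable_pi_apply _).comp ((Measurable.of_discrete).comp (Finset.measurable_restrict I))
  refine ⟨hFm, ?_⟩
  symm
  refine (Measure.isProjectiveLimit_infinitePi
    (fun _ : ι => ProbabilityTheory.uniformOn (Set.univ : Set S))).unique ?_
  intro I₀
  obtain ⟨I, hI₀, hI⟩ := h I₀
  have hinj : Function.Injective (FI I) := by
    intro b b' hbb
    funext i
    have h1 := (hI (ext I b) (ext I b')).mpr fun j hj => congrFun hbb ⟨j, hj⟩
    have h2 := h1 i.1 i.2
    rwa [hextI I b i.1 i.2, hextI I b' i.1 i.2] at h2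
  have hbij : Function.Bijective (FI I) := hinj.bijective_of_finite
  have hlaw : μ.map I.restrict = Measure.pi fun _ : I =>
      ProbabilityTheory.uniformOn (Set.univ : Set S) := Measure.infinitePi_map_restrict _
  have hpres : (μ.map I.restrict).map (FI I) = μ.map I.restrict := by
    refine Measure.ext_of_singleton fun b => ?_
    obtain ⟨b', hb'⟩ := hbij.2 b
    rw [Measure.map_apply Measurable.of_discrete (measurableSet_singleton b)]
    have h1 : FI I ⁻¹' {b} = {b'} := by
      ext c
      rw [Set.mem_preimage, Set.mem_singleton_iff, Set.mem_singleton_iff]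
      exact ⟨fun hc => hinj (hc.trans hb'.symm), fun hc => by rw [hc, hb']⟩
    rw [h1, hlaw, Measure.pi_singleton, Measure.pi_singleton]
    exact Finset.prod_congr rfl fun i _ => Meas_const _ _
  have hr2 : Finset.restrict (π := fun _ : ι => S) I₀ =
      Finset.restrict₂ (π := fun _ : ι => S) hI₀ ∘ Finset.restrict (π := fun _ : ι => S) I := rfl
  have hmr : Measurable (Finset.restrict₂ (π := fun _ : ι => S) hI₀) :=
    Finset.measurable_restrict₂ hI₀
  rw [Measure.map_map (Finset.measurable_restrict I₀) hFm]
  have h2 : I₀.restrict ∘ F = Finset.restrict₂ (π := fun _ : ι => S) hI₀ ∘ (FI I ∘ I.restrict) := by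
    rw [← hcomp I hI]
    rfl
  have hFIm : Measurable (FI I) := Measurable.of_discrete
  have hrm : Measurable (Finset.restrict (π := fun _ : ι => S) I) := Finset.measurable_restrict I
  have h3 : μ.map (Finset.restrict₂ (π := fun _ : ι => S) hI₀ ∘ (FI I ∘ I.restrict)) =
      μ.map (Finset.restrict (π := fun _ : ι => S) I₀) := by
    rw [← Measure.map_map hmr (hFIm.comp hrm), ← Measure.map_map hFIm hrm, hpres,
      Measure.map_map hmr hrm, ← hr2]
  rw [h2]
  exact h3.trans (Measure.infinitePi_map_restrict _)

end Pool.Agent.MR
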